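import Pool.Agent.Q326.SP.Total

set_option autoImplicit false
set_option linter.unusedSectionVars false

/-! # Asymptotics and the choice of the length -/

namespace Pool.Agent.Q326.SP

open MeasureTheory ProbabilityTheory Filter Topology

/-- the cyclic shift -/
def shift (m : ℕ) : Equiv.Perm (ZMod (m + 2)) := Equiv.addRight 1

theorem single_shift (m : ℕ) : Single (shift m) := by
  constructor
  · intro t ht
    have h1 : t + 1 = t := ht
    have h2 : (1 : ZMod (m + 2)) = 0 := by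
      have := congrArg (fun z => z - t) h1
      simpa using this
    have h3 : (1 : ZMod (m + 2)) ≠ 0 := by
      have : Fact (1 < m + 2) := ⟨by omega⟩
      exact one_ne_zero
    exact h3 h2
  · intro S hS hc
    obtain ⟨s, hs⟩ := hS
    have h1 : ∀ i : ℕ, s + i ∈ S := by
      intro i
      induction i with
      | zero => simpa using hs
      | succ i ih =>
        have := hc _ ih
        have e : shift m (s + (i : ZMod (m + 2))) = s + ((i + 1 : ℕ) : ZMod (m + 2)) := by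
          change s + (i : ZMod (m + 2)) + 1 = _
          push_cast
          ring
        rwa [e] at this
    ext x
    simp only [Finset.mem_univ, iff_true]
    have h2 := h1 (x - s).val
    rw [ZMod.natCast_val, ZMod.cast_id] at h2
    simpa using h2

/-- the polynomial of the cycles of length `2 (m + 2)` -/
noncomputable def poly (m n N : ℕ) : MvPolynomial (Fin n × Fin N) ℝ := cycPoly (shift m) n N

theorem card_zmod (m : ℕ) : Fintype.card (ZMod (m + 2)) = m + 2 := ZMod.card _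

section

variable {β γ : ℝ} {N : ℕ → ℕ} {k : ℕ → ℝ}

theorem tendsto_N (hγ : 0 < γ) (hN : Tendsto (fun n : ℕ => (n : ℝ) / N n) atTop (𝓝 γ)) :
    Tendsto N atTop atTop := by
  have h1 : ∀ᶠ n : ℕ in atTop, (n : ℝ) / N n < 2 * γ := by
    have := hN.eventually_lt_const (show γ < 2 * γ by linarith)
    exact this
  have h0 : ∀ᶠ n : ℕ in atTop, γ / 2 < (n : ℝ) / N n :=
    hN.eventually_const_lt (show γ / 2 < γ by linarith)
  have h2 : Tendsto (fun n : ℕ => (N n : ℝ)) atTop atTop := by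
    have h3 : Tendsto (fun n : ℕ => (n : ℝ) / (2 * γ)) atTop atTop :=
      tendsto_natCast_atTop_atTop.atTop_div_const (by linarith)
    refine tendsto_atTop_mono' _ ?_ h3
    filter_upwards [h1, h0] with n hn hn0
    have hN0 : (0 : ℝ) < N n := by
      rcases Nat.eq_zero_or_pos (N n) with h | h
      · rw [h] at hn0
        simp at hn0
        linarith
      · exact_mod_cast h
    rw [div_lt_iff₀ hN0] at hn
    rw [div_le_iff₀ (by linarith)]
    linarith
  exact tendsto_natCast_atTop_iff.mp h2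

theorem tendsto_inv_ratio (hγ : 0 < γ)
    (hN : Tendsto (fun n : ℕ => (n : ℝ) / N n) atTop (𝓝 γ)) :
    Tendsto (fun n : ℕ => (N n : ℝ) / n) atTop (𝓝 γ⁻¹) := by
  have := hN.inv₀ hγ.ne'
  refine this.congr fun n => ?_
  rw [inv_div]

theorem tendsto_desc (l : ℕ) {M : ℕ → ℕ} (hM : Tendsto M atTop atTop) :
    Tendsto (fun n => ((M n).descFactorial l : ℝ) / (M n : ℝ) ^ l) atTop (𝓝 1) := by
  have h := isEquivalent_descFactorial l
  rw [Asymptotics.isEquivalent_iff_tendsto_one] at h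
  · exact h.comp hM
  · filter_upwards [eventually_gt_atTop 0] with n hn
    positivity

/-- the limit of the normalised number of cycles -/
theorem tendsto_A (hγ : 0 < γ) (hN : Tendsto (fun n : ℕ => (n : ℝ) / N n) atTop (𝓝 γ))
    (m : ℕ) : Tendsto (fun n : ℕ => L (ZMod (m + 2)) n (N n) * (β / n) ^ (2 * (m + 2)))
      atTop (𝓝 ((β ^ 2 / γ) ^ (m + 2))) := by
  have h1 := tendsto_desc (m + 2) (M := fun n => n) tendsto_id
  have h2 := tendsto_desc (m + 2) (tendsto_N hγ hN)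
  have h3 := (tendsto_inv_ratio hγ hN).pow (m + 2)
  have h4 : Tendsto (fun n : ℕ => (β ^ 2) ^ (m + 2) * (((n.descFactorial (m + 2) : ℝ) /
      (n : ℝ) ^ (m + 2)) * (((N n).descFactorial (m + 2) : ℝ) / (N n : ℝ) ^ (m + 2)) *
      ((N n : ℝ) / n) ^ (m + 2))) atTop (𝓝 ((β ^ 2) ^ (m + 2) * (1 * 1 * γ⁻¹ ^ (m + 2)))) :=
    ((h1.mul h2).mul h3).const_mul _
  have e : (β ^ 2) ^ (m + 2) * (1 * 1 * γ⁻¹ ^ (m + 2)) = (β ^ 2 / γ) ^ (m + 2) := by
    rw [one_mul, one_mul, ← mul_pow]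
    rfl
  rw [e] at h4
  refine h4.congr' ?_
  filter_upwards [eventually_gt_atTop 0, (tendsto_N hγ hN).eventually_gt_atTop 0] with n hn hNn
  have hn' : (n : ℝ) ≠ 0 := by positivity
  have hN' : (N n : ℝ) ≠ 0 := by positivity
  rw [L_eq, card_zmod, div_pow, div_pow, pow_mul, pow_mul]
  field_simp
  ring

theorem tendsto_kap (hk : Tendsto k atTop atTop) (l : ℕ) :
    Tendsto (fun n => kap β (k n) 0 2 ^ l) atTop (𝓝 1) := by
  have h0 : Tendsto (fun n => β / k n) atTop (𝓝 0) := hk.const_div_atTop β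
  have h1 : Tendsto (fun n => 1 + 2 * (β / k n) + (β / k n) ^ 2 * M4) atTop
      (𝓝 (1 + 2 * 0 + 0 ^ 2 * M4)) :=
    (tendsto_const_nhds.add (h0.const_mul 2)).add ((h0.pow 2).mul_const M4)
  have h2 := h1.pow l
  simp only [mul_zero, add_zero, ne_eq, OfNat.ofNat_ne_zero, not_false_eq_true, zero_pow,
    zero_mul, one_pow] at h2
  refine h2.congr fun n => ?_
  rw [kap_zero_two]

/-- **the variances are small compared with the square of the difference of the means** -/
theorem eventually_good (hβ : 0 < β) (hγ : 0 < γ)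
    (hN : Tendsto (fun n : ℕ => (n : ℝ) / N n) atTop (𝓝 γ)) (hk : Tendsto k atTop atTop)
    (hkn : Tendsto (fun n : ℕ => k n / n) atTop (𝓝 0)) (m : ℕ) :
    ∀ᶠ n : ℕ in atTop,
      max (Var[value (poly m n (N n)); plantedLaw β (k n) n (N n)])
        (Var[value (poly m n (N n)); nullLaw n (N n)]) ≤
      3 * (m + 2) * (γ / β ^ 2) ^ (m + 2) *
        ((∫ Y, value (poly m n (N n)) Y ∂(plantedLaw β (k n) n (N n))) -
          ∫ Y, value (poly m n (N n)) Y ∂(nullLaw n (N n))) ^ 2 := by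
  have hcard := card_zmod m
  set A : ℕ → ℝ := fun n => L (ZMod (m + 2)) n (N n) * (β / n) ^ (2 * (m + 2)) with hA
  have hAlim := tendsto_A (β := β) hγ hN m
  have hr : 0 < γ / β ^ 2 := by positivity
  -- the right hand side
  have hg2 : Tendsto (fun n => 3 * ((m : ℝ) + 2) * (γ / β ^ 2) ^ (m + 2) * A n) atTop
      (𝓝 (3 * ((m : ℝ) + 2))) := by
    have h := hAlim.const_mul (3 * ((m : ℝ) + 2) * (γ / β ^ 2) ^ (m + 2))
    have e : 3 * ((m : ℝ) + 2) * (γ / β ^ 2) ^ (m + 2) * (β ^ 2 / γ) ^ (m + 2) =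
        3 * ((m : ℝ) + 2) := by
      rw [mul_assoc, ← mul_pow]
      have : γ / β ^ 2 * (β ^ 2 / γ) = 1 := by field_simp
      rw [this, one_pow, mul_one]
    rw [e] at h
    exact h
  -- the left hand side
  have hinv : Tendsto (fun n : ℕ => (1 / (n : ℝ) + 1 / k n)) atTop (𝓝 (0 + 0)) :=
    (tendsto_one_div_atTop_nhds_zero_nat (𝕜 := ℝ)).add (hk.const_div_atTop 1)
  have hB : Tendsto (fun n : ℕ => ((m : ℝ) + 2 + 1) ^ (m + 2) *
      ((m : ℝ) + 2 + (N n : ℝ) / n) ^ (m + 2)) atTop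
      (𝓝 (((m : ℝ) + 2 + 1) ^ (m + 2) * ((m : ℝ) + 2 + γ⁻¹) ^ (m + 2))) :=
    ((tendsto_const_nhds.add (tendsto_inv_ratio hγ hN)).pow _).const_mul _
  have hg1 : Tendsto (fun n => 2 * ((m : ℝ) + 2) * kap β (k n) 0 2 ^ (m + 2) +
      bigK β ^ (2 * (m + 2)) * (1 / (n : ℝ) + 1 / k n) * (((m : ℝ) + 2 + 1) ^ (m + 2) *
      ((m : ℝ) + 2 + (N n : ℝ) / n) ^ (m + 2))) atTop (𝓝 (2 * ((m : ℝ) + 2))) := by
    have h := ((tendsto_kap (β := β) hk (m + 2)).const_mul (2 * ((m : ℝ) + 2))).add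
      ((hinv.const_mul (bigK β ^ (2 * (m + 2)))).mul hB)
    simpa using h
  have hlt : (2 * ((m : ℝ) + 2)) < 3 * ((m : ℝ) + 2) := by
    have : (0 : ℝ) ≤ m := Nat.cast_nonneg m
    linarith
  have hk1 : ∀ᶠ n in atTop, 1 ≤ k n := hk.eventually_ge_atTop 1
  have hkn1 : ∀ᶠ n : ℕ in atTop, k n / n < 1 := hkn.eventually_lt_const one_pos
  filter_upwards [hg1.eventually_lt hg2 hlt, hg2.eventually_const_lt hlt, hk1, hkn1,
    eventually_gt_atTop 0] with n h1 h2 hk1 hkn1 hn
  have hn0 : (0 : ℝ) < n := by exact_mod_cast hn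
  have hkn2 : k n ≤ n := by
    rw [div_lt_one hn0] at hkn1
    exact hkn1.le
  have hne : Nonempty (ZMod (m + 2)) := ⟨0⟩
  have hmean := planted_mean (N := N n) (single_shift m) hβ.le (by linarith : 0 < k n) hkn2
    hn.ne'
  have hnull := null_mean (n := n) (N := N n) (single_shift m)
  have hvP := planted_var (N := N n) (single_shift m) hβ.le hk1 hkn2
  have hvQ := null_var (n := n) (N := N n) (single_shift m)
  have hS := S_le (T := ZMod (m + 2)) (N := N n) hn.ne'
  have hL : 0 ≤ L (ZMod (m + 2)) n (N n) := L_nonneg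
  unfold poly
  rw [hmean, hnull, sub_zero]
  rw [hcard] at *
  have e1 : (L (ZMod (m + 2)) n (N n) * (β / n) ^ (m + 2)) ^ 2 =
      L (ZMod (m + 2)) n (N n) * A n := by
    rw [hA, mul_pow, ← pow_mul]
    ring
  rw [e1]
  refine max_le ?_ ?_
  · refine hvP.trans ?_
    have hK := one_le_bigK hβ.le
    have h3 : bigK β ^ (2 * (m + 2)) * (1 / n + 1 / k n) * (1 / n : ℝ) ^ (2 * (m + 2)) *
        S (ZMod (m + 2)) n (N n) ≤ bigK β ^ (2 * (m + 2)) * (1 / n + 1 / k n) *
        (1 / n : ℝ) ^ (2 * (m + 2)) * (L (ZMod (m + 2)) n (N n) *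
          ((((m + 2 : ℕ) : ℝ) * n + n) ^ (m + 2) * (((m + 2 : ℕ) : ℝ) * n + N n) ^ (m + 2))) := by
      refine mul_le_mul_of_nonneg_left hS ?_
      have : 0 < k n := by linarith
      positivity
    have h4 : (1 / n : ℝ) ^ (2 * (m + 2)) * ((((m + 2 : ℕ) : ℝ) * n + n) ^ (m + 2) *
        (((m + 2 : ℕ) : ℝ) * n + N n) ^ (m + 2)) = ((m : ℝ) + 2 + 1) ^ (m + 2) *
      ((m : ℝ) + 2 + (N n : ℝ) / n) ^ (m + 2) := by
      rw [show 2 * (m + 2) = (m + 2) + (m + 2) by ring, pow_add]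
      have h5 : (1 / n : ℝ) ^ (m + 2) * (((m + 2 : ℕ) : ℝ) * n + n) ^ (m + 2) =
          ((m : ℝ) + 2 + 1) ^ (m + 2) := by
        rw [← mul_pow]
        congr 1
        push_cast
        field_simp
      have h6 : (1 / n : ℝ) ^ (m + 2) * (((m + 2 : ℕ) : ℝ) * n + N n) ^ (m + 2) =
          ((m : ℝ) + 2 + (N n : ℝ) / n) ^ (m + 2) := by
        rw [← mul_pow]
        congr 1
        push_cast
        field_simp
      rw [← h5, ← h6]
      ring
    calc 2 * (((m + 2 : ℕ) : ℝ)) * L (ZMod (m + 2)) n (N n) * kap β (k n) 0 2 ^ (m + 2) +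
          bigK β ^ (2 * (m + 2)) * (1 / n + 1 / k n) * (1 / n : ℝ) ^ (2 * (m + 2)) *
          S (ZMod (m + 2)) n (N n)
        ≤ 2 * (((m + 2 : ℕ) : ℝ)) * L (ZMod (m + 2)) n (N n) * kap β (k n) 0 2 ^ (m + 2) +
          bigK β ^ (2 * (m + 2)) * (1 / n + 1 / k n) * (1 / n : ℝ) ^ (2 * (m + 2)) *
          (L (ZMod (m + 2)) n (N n) * ((((m + 2 : ℕ) : ℝ) * n + n) ^ (m + 2) *
            (((m + 2 : ℕ) : ℝ) * n + N n) ^ (m + 2))) := by linarith
      _ = L (ZMod (m + 2)) n (N n) * (2 * ((m : ℝ) + 2) * kap β (k n) 0 2 ^ (m + 2) +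
          bigK β ^ (2 * (m + 2)) * (1 / n + 1 / k n) * ((1 / n : ℝ) ^ (2 * (m + 2)) *
          ((((m + 2 : ℕ) : ℝ) * n + n) ^ (m + 2) *
            (((m + 2 : ℕ) : ℝ) * n + N n) ^ (m + 2)))) := by
          push_cast
          ring
      _ ≤ L (ZMod (m + 2)) n (N n) * (3 * ((m : ℝ) + 2) * (γ / β ^ 2) ^ (m + 2) * A n) := by
          rw [h4]
          exact mul_le_mul_of_nonneg_left h1.le hL
      _ = _ := by ring
  · refine hvQ.trans ?_
    calc 2 * (((m + 2 : ℕ) : ℝ)) * L (ZMod (m + 2)) n (N n)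
        = L (ZMod (m + 2)) n (N n) * (2 * ((m : ℝ) + 2)) := by push_cast; ring
      _ ≤ L (ZMod (m + 2)) n (N n) * (3 * ((m : ℝ) + 2) * (γ / β ^ 2) ^ (m + 2) * A n) :=
          mul_le_mul_of_nonneg_left h2.le hL
      _ = _ := by ring

end

/-- a slowly growing choice of the parameter -/
theorem diag (P : ℕ → ℕ → Prop) (hP : ∀ m, ∀ᶠ n in atTop, P m n) {D : ℕ → ℕ}
    (hD : Tendsto D atTop atTop) :
    ∃ m : ℕ → ℕ, Tendsto m atTop atTop ∧ ∀ᶠ n in atTop, P (m n) n ∧ 2 * (m n + 2) ≤ D n := by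
  classical
  let P' : ℕ → ℕ → Prop := fun m n => P m n ∧ 2 * (m + 2) ≤ D n
  have hP' : ∀ m, ∀ᶠ n in atTop, P' m n := fun m =>
    (hP m).and (hD.eventually_ge_atTop (2 * (m + 2)))
  refine ⟨fun n => Nat.findGreatest (fun m => P' m n) n, ?_, ?_⟩
  · rw [tendsto_atTop]
    intro M
    filter_upwards [hP' M, eventually_ge_atTop M] with n h1 h2
    exact Nat.le_findGreatest h2 h1
  · filter_upwards [hP' 0] with n h1
    exact Nat.findGreatest_spec (P := fun m => P' m n) (Nat.zero_le n) h1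

/-- strong separation of the planted and the null law by the polynomials `f n` -/
def StronglySeparates (β : ℝ) (k : ℕ → ℝ) (N : ℕ → ℕ)
    (f : ∀ n, MvPolynomial (Fin n × Fin (N n)) ℝ) : Prop :=
  (fun n => √(max (Var[value (f n); plantedLaw β (k n) n (N n)])
    (Var[value (f n); nullLaw n (N n)]))) =o[atTop]
  fun n => |(∫ Y, value (f n) Y ∂(plantedLaw β (k n) n (N n))) -
    ∫ Y, value (f n) Y ∂(nullLaw n (N n))|

theorem main {β γ : ℝ} (hβ : 0 < β) (hγ : 0 < γ) (hlam : 1 < β / √γ) {N : ℕ → ℕ} {k : ℕ → ℝ}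
    (hN : Tendsto (fun n : ℕ => (n : ℝ) / N n) atTop (𝓝 γ)) (hk : Tendsto k atTop atTop)
    (hkn : Tendsto (fun n : ℕ => k n / n) atTop (𝓝 0)) {D : ℕ → ℕ}
    (hD : Tendsto D atTop atTop) :
    ∃ f : ∀ n, MvPolynomial (Fin n × Fin (N n)) ℝ, (∀ n, (f n).totalDegree ≤ D n) ∧
      StronglySeparates β k N f := by
  classical
  obtain ⟨m, hm, hgood⟩ := diag _ (eventually_good hβ hγ hN hk hkn) hD
  have hr : γ / β ^ 2 < 1 := by
    rw [one_lt_div (Real.sqrt_pos.mpr hγ)] at hlam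
    rw [div_lt_one (by positivity)]
    calc γ = (√γ) ^ 2 := (Real.sq_sqrt hγ.le).symm
      _ < β ^ 2 := pow_lt_pow_left₀ hlam (Real.sqrt_nonneg _) two_ne_zero
  have hr0 : 0 < γ / β ^ 2 := by positivity
  refine ⟨fun n => if 2 * (m n + 2) ≤ D n then poly (m n) n (N n) else 0, ?_, ?_⟩
  · intro n
    dsimp only
    split_ifs with h
    · refine (degree_cycPoly (single_shift (m n))).trans ?_
      rw [card_zmod]
      exact h
    · simp
  · -- the ratio tends to zero
    have hlim : Tendsto (fun n => 3 * ((m n : ℝ) + 2) * (γ / β ^ 2) ^ (m n + 2)) atTop (𝓝 0) := by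
      have h1 : Tendsto (fun l : ℕ => (l : ℝ) * (γ / β ^ 2) ^ l) atTop (𝓝 0) :=
        tendsto_self_mul_const_pow_of_lt_one hr0.le hr
      have h2 : Tendsto (fun n => m n + 2) atTop atTop :=
        tendsto_atTop_mono (fun n => Nat.le_add_right _ _) hm
      have h3 := (h1.comp h2).const_mul 3
      rw [mul_zero] at h3
      refine h3.congr fun n => ?_
      simp only [Function.comp_apply]
      push_cast
      ring
    rw [StronglySeparates, Asymptotics.isLittleO_iff]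
    intro c hc
    have h4 : ∀ᶠ n in atTop, 3 * ((m n : ℝ) + 2) * (γ / β ^ 2) ^ (m n + 2) < c ^ 2 :=
      hlim.eventually_lt_const (by positivity)
    filter_upwards [hgood, h4] with n hn h4
    rw [if_pos hn.2, Real.norm_eq_abs, Real.norm_eq_abs, abs_abs,
      abs_of_nonneg (Real.sqrt_nonneg _)]
    refine Real.sqrt_le_iff.mpr ⟨by positivity, ?_⟩
    refine hn.1.trans ?_
    rw [mul_pow, sq_abs]
    exact mul_le_mul_of_nonneg_right h4.le (sq_nonneg _)

end Pool.Agent.Q326.SP
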