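import Mathlib

set_option autoImplicit false
set_option linter.unusedSectionVars false

/-! # Pairs of cycles in a complete bipartite graph -/

namespace Pool.Agent.Q326.SP

open Finset

variable {T : Type} [Fintype T] [DecidableEq T] (σ : Equiv.Perm T) {n N : ℕ}

/-- a cycle with `|T|` rows and `|T|` columns -/
abbrev Cyc (T : Type) (n N : ℕ) : Type := (T ↪ Fin n) × (T ↪ Fin N)

/-- the edges (positions) of the cycle: column `c.2 t` is joined to the rows `c.1 t`, `c.1 (σ t)` -/
def edges (c : Cyc T n N) : Finset (Fin n × Fin N) :=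
  univ.image (fun t => (c.1 t, c.2 t)) ∪ univ.image (fun t => (c.1 (σ t), c.2 t))

variable {σ}

theorem mem_edges {c : Cyc T n N} {i : Fin n} {j : Fin N} :
    (i, j) ∈ edges σ c ↔ ∃ t, c.2 t = j ∧ (c.1 t = i ∨ c.1 (σ t) = i) := by
  simp only [edges, mem_union, mem_image, mem_univ, true_and, Prod.mk.injEq]
  constructor
  · rintro (⟨t, h1, h2⟩ | ⟨t, h1, h2⟩)
    · exact ⟨t, h2, Or.inl h1⟩
    · exact ⟨t, h2, Or.inr h1⟩
  · rintro ⟨t, h1, h2 | h2⟩
    · exact Or.inl ⟨t, h2, h1⟩
    · exact Or.inr ⟨t, h2, h1⟩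

theorem mem_edges_col {c : Cyc T n N} {i : Fin n} {t : T} :
    (i, c.2 t) ∈ edges σ c ↔ i = c.1 t ∨ i = c.1 (σ t) := by
  rw [mem_edges]
  constructor
  · rintro ⟨s, h1, h2⟩
    rw [c.2.injective h1] at h2
    tauto
  · rintro (h | h)
    · exact ⟨t, rfl, Or.inl h.symm⟩
    · exact ⟨t, rfl, Or.inr h.symm⟩

theorem mem_edges_row {c : Cyc T n N} {j : Fin N} {t : T} :
    (c.1 t, j) ∈ edges σ c ↔ j = c.2 t ∨ j = c.2 (σ.symm t) := by
  rw [mem_edges]
  constructor
  · rintro ⟨s, h1, h2 | h2⟩
    · rw [c.1.injective h2] at h1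
      exact Or.inl h1.symm
    · have h3 := c.1.injective h2
      rw [← h3]
      exact Or.inr (by simp [h1])
  · rintro (h | h)
    · exact ⟨t, h.symm, Or.inl rfl⟩
    · exact ⟨σ.symm t, h.symm, Or.inr (by simp)⟩

/-- the columns of the entries of the cycle in row `i` -/
def sec (σ : Equiv.Perm T) (c : Cyc T n N) (i : Fin n) : Finset (Fin N) :=
  univ.filter fun j => (i, j) ∈ edges σ c

theorem mem_sec {c : Cyc T n N} {i : Fin n} {j : Fin N} :
    j ∈ sec σ c i ↔ (i, j) ∈ edges σ c := by
  simp [sec]

theorem sec_row {c : Cyc T n N} (t : T) : sec σ c (c.1 t) = {c.2 t, c.2 (σ.symm t)} := by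
  ext j
  rw [mem_sec, mem_edges_row]
  simp

theorem sec_not {c : Cyc T n N} {i : Fin n} (h : ∀ t, c.1 t ≠ i) : sec σ c i = ∅ := by
  ext j
  rw [mem_sec, mem_edges]
  simp only [notMem_empty, iff_false, not_exists, not_and, not_or]
  exact fun t _ => ⟨h t, h (σ t)⟩

/-- the rows of the entries of the cycle in column `j` -/
def csec (σ : Equiv.Perm T) (c : Cyc T n N) (j : Fin N) : Finset (Fin n) :=
  univ.filter fun i => (i, j) ∈ edges σ c

theorem mem_csec {c : Cyc T n N} {i : Fin n} {j : Fin N} :
    i ∈ csec σ c j ↔ (i, j) ∈ edges σ c := by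
  simp [csec]

theorem csec_col {c : Cyc T n N} (t : T) : csec σ c (c.2 t) = {c.1 t, c.1 (σ t)} := by
  ext j
  rw [mem_csec, mem_edges_col]
  simp

theorem csec_not {c : Cyc T n N} {j : Fin N} (h : ∀ t, c.2 t ≠ j) : csec σ c j = ∅ := by
  ext i
  rw [mem_csec, mem_edges]
  simp only [notMem_empty, iff_false, not_exists, not_and, not_or]
  exact fun t h1 => absurd h1 (h t)

/-- what is needed of the permutation: it has no fixed point and is transitive -/
structure Single (σ : Equiv.Perm T) : Prop where
  ne : ∀ t, σ t ≠ t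
  all : ∀ S : Finset T, S.Nonempty → (∀ t ∈ S, σ t ∈ S) → S = univ

theorem Single.symm_ne (h : Single σ) (t : T) : σ.symm t ≠ t := by
  intro h1
  apply h.ne t
  conv_lhs => rw [← h1]
  simp

/-- a set which is closed under the inverse is also closed under the permutation -/
theorem closed_of_symm (S : Finset T) (h : ∀ t ∈ S, σ.symm t ∈ S) : ∀ t ∈ S, σ t ∈ S := by
  have h1 : S.map σ.symm.toEmbedding ⊆ S := by
    intro t ht
    rw [mem_map] at ht
    obtain ⟨s, hs, rfl⟩ := ht
    exact h s hs
  have h2 : S.map σ.symm.toEmbedding = S := eq_of_subset_of_card_le h1 (by rw [card_map])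
  intro t ht
  rw [← h2, mem_map] at ht
  obtain ⟨s, hs, h3⟩ := ht
  rw [← h3]
  simpa using hs

theorem Single.all' (h : Single σ) (S : Finset T) (hS : S.Nonempty)
    (hc : ∀ t ∈ S, σ.symm t ∈ S) : S = univ :=
  h.all S hS (closed_of_symm S hc)

theorem card_sec (h : Single σ) (c : Cyc T n N) (i : Fin n) :
    (sec σ c i).card = 0 ∨ (sec σ c i).card = 2 := by
  by_cases hi : ∃ t, c.1 t = i
  · obtain ⟨t, rfl⟩ := hi
    right
    rw [sec_row, card_pair]
    exact fun h1 => h.symm_ne t (c.2.injective h1).symm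
  · push Not at hi
    left
    rw [sec_not hi, card_empty]

theorem card_csec (h : Single σ) (c : Cyc T n N) (t : T) : (csec σ c (c.2 t)).card = 2 := by
  rw [csec_col, card_pair]
  exact fun h1 => h.ne t (c.1.injective h1).symm

theorem card_edges (h : Single σ) (c : Cyc T n N) : (edges σ c).card = 2 * Fintype.card T := by
  rw [edges, card_union_of_disjoint, card_image_of_injective, card_image_of_injective, card_univ]
  · ring
  · intro s t hst
    exact c.2.injective (Prod.mk.inj hst).2
  · intro s t hst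
    exact c.2.injective (Prod.mk.inj hst).2
  · rw [disjoint_left]
    intro p h1 h2
    rw [mem_image] at h1 h2
    obtain ⟨t, -, rfl⟩ := h1
    obtain ⟨s, -, h3⟩ := h2
    obtain ⟨h4, h5⟩ := Prod.mk.inj h3
    rw [c.2.injective h5] at h4
    exact h.ne t (c.1.injective h4)

/-! ### the number of cycles with the same edges -/

theorem eq_of_edges_eq (h : Single σ) {c d : Cyc T n N} (he : edges σ c = edges σ d) (t₀ : T)
    (h1 : c.1 t₀ = d.1 t₀) (h2 : c.2 t₀ = d.2 t₀) : c = d := by
  have key : ∀ t, c.1 t = d.1 t → c.2 t = d.2 t →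
      c.1 (σ t) = d.1 (σ t) ∧ c.2 (σ t) = d.2 (σ t) := by
    intro t h1 h2
    have h3 : c.1 (σ t) = d.1 (σ t) := by
      have h4 : (c.1 (σ t), c.2 t) ∈ edges σ c := mem_edges_col.mpr (Or.inr rfl)
      rw [he, h2, mem_edges_col] at h4
      rcases h4 with h4 | h4
      · exfalso
        rw [← h1] at h4
        exact h.ne t (c.1.injective h4)
      · exact h4
    refine ⟨h3, ?_⟩
    have h4 : (c.1 (σ t), c.2 (σ t)) ∈ edges σ c := mem_edges_row.mpr (Or.inl rfl)
    rw [he, h3, mem_edges_row] at h4
    rcases h4 with h4 | h4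
    · exact h4
    · exfalso
      rw [Equiv.symm_apply_apply, ← h2] at h4
      exact h.ne t (c.2.injective h4)
  have hall := h.all (univ.filter fun t => c.1 t = d.1 t ∧ c.2 t = d.2 t)
    ⟨t₀, by simp [h1, h2]⟩ (by
      intro t ht
      simp only [mem_filter, mem_univ, true_and] at ht ⊢
      exact key t ht.1 ht.2)
  have h5 : ∀ t, c.1 t = d.1 t ∧ c.2 t = d.2 t := by
    intro t
    have : t ∈ univ.filter fun t => c.1 t = d.1 t ∧ c.2 t = d.2 t := by rw [hall]; simp
    simpa using this
  refine Prod.ext ?_ ?_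
  · exact DFunLike.ext _ _ fun t => (h5 t).1
  · exact DFunLike.ext _ _ fun t => (h5 t).2

theorem card_same_edges (h : Single σ) [Nonempty T] (c : Cyc T n N) :
    (univ.filter fun d : Cyc T n N => edges σ c = edges σ d).card ≤ 2 * Fintype.card T := by
  obtain ⟨t₀⟩ := (inferInstance : Nonempty T)
  rw [← card_edges h c]
  refine card_le_card_of_injOn (fun d => (d.1 t₀, d.2 t₀)) ?_ ?_
  · intro d hd
    simp only [coe_filter, mem_univ, true_and] at hd
    have hd' : edges σ c = edges σ d := hd
    simp only [mem_coe]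
    rw [hd', mem_edges_row]
    exact Or.inl rfl
  · intro d hd e he hde
    simp only [coe_filter, mem_univ, true_and] at hd he
    have hd' : edges σ c = edges σ d := hd
    have he' : edges σ c = edges σ e := he
    obtain ⟨h1, h2⟩ := Prod.mk.inj hde
    exact eq_of_edges_eq h (hd'.symm.trans he') t₀ h1 h2

/-! ### the degrees of the symmetric difference -/

/-- the number of entries in row `i` that belong to exactly one of the cycles -/
def deg (σ : Equiv.Perm T) (c d : Cyc T n N) (i : Fin n) : ℕ :=
  (symmDiff (sec σ c i) (sec σ d i)).card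

theorem deg_even (h : Single σ) (c d : Cyc T n N) (i : Fin n) (hi : deg σ c d i ≠ 0) :
    2 ≤ deg σ c d i := by
  unfold deg at *
  have e1 : (symmDiff (sec σ c i) (sec σ d i)).card =
      (sec σ c i \ sec σ d i).card + (sec σ d i \ sec σ c i).card := by
    rw [symmDiff_def, sup_eq_union, card_union_of_disjoint disjoint_sdiff_sdiff]
  have e2 := card_sdiff_add_card_inter (sec σ c i) (sec σ d i)
  have e3 := card_sdiff_add_card_inter (sec σ d i) (sec σ c i)
  rw [inter_comm] at e3
  rcases card_sec h c i with h1 | h1 <;> rcases card_sec h d i with h2 | h2 <;> omega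

theorem deg_eq_zero {c d : Cyc T n N} {i : Fin n} : deg σ c d i = 0 ↔ sec σ c i = sec σ d i := by
  rw [deg, card_eq_zero, ← bot_eq_empty, symmDiff_eq_bot]

/-- the rows of a cycle -/
def rows (c : Cyc T n N) : Finset (Fin n) := univ.map c.1

/-- the columns of a cycle -/
def cols (c : Cyc T n N) : Finset (Fin N) := univ.map c.2

theorem card_rows (c : Cyc T n N) : (rows c).card = Fintype.card T := by
  rw [rows, card_map, card_univ]

theorem card_cols (c : Cyc T n N) : (cols c).card = Fintype.card T := by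
  rw [cols, card_map, card_univ]

theorem mem_rows {c : Cyc T n N} {i : Fin n} : i ∈ rows c ↔ ∃ t, c.1 t = i := by
  simp [rows]

theorem mem_cols {c : Cyc T n N} {j : Fin N} : j ∈ cols c ↔ ∃ t, c.2 t = j := by
  simp [cols]

theorem sec_nonempty {c : Cyc T n N} {i : Fin n} (hi : i ∈ rows c) : (sec σ c i).Nonempty := by
  obtain ⟨t, rfl⟩ := mem_rows.mp hi
  rw [sec_row]
  exact ⟨c.2 t, by simp⟩

theorem sec_subset {c : Cyc T n N} {i : Fin n} : sec σ c i ⊆ cols c := by
  intro j hj
  rw [mem_sec, mem_edges] at hj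
  obtain ⟨t, h1, -⟩ := hj
  exact mem_cols.mpr ⟨t, h1⟩

theorem sec_empty {c : Cyc T n N} {i : Fin n} (hi : i ∉ rows c) : sec σ c i = ∅ :=
  sec_not fun t ht => hi (mem_rows.mpr ⟨t, ht⟩)

/-- the rows with degree zero among all rows of the two cycles are common rows -/
theorem mem_both {c d : Cyc T n N} {i : Fin n} (h0 : deg σ c d i = 0)
    (hi : i ∈ rows c ∪ rows d) : i ∈ rows c ∧ i ∈ rows d := by
  rw [deg_eq_zero] at h0
  rw [mem_union] at hi
  rcases hi with hi | hi
  · refine ⟨hi, ?_⟩
    by_contra h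
    rw [sec_empty h] at h0
    exact (sec_nonempty hi).ne_empty h0
  · refine ⟨?_, hi⟩
    by_contra h
    rw [sec_empty h] at h0
    exact (sec_nonempty hi).ne_empty h0.symm

/-- the number of rows of degree zero is smaller than the number of common columns -/
theorem card_zero_lt (h : Single σ) {c d : Cyc T n N} (hne : edges σ c ≠ edges σ d)
    (hb : (cols c ∩ cols d).Nonempty) :
    ((rows c ∪ rows d).filter fun i => deg σ c d i = 0).card < (cols c ∩ cols d).card := by
  set A : Finset T := univ.filter fun t => deg σ c d (c.1 t) = 0 with hA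
  set B : Finset T := univ.filter fun t => c.2 t ∈ cols d with hB
  have e1 : ((rows c ∪ rows d).filter fun i => deg σ c d i = 0) = A.map c.1 := by
    ext i
    simp only [mem_filter, mem_map, hA, mem_univ, true_and]
    constructor
    · rintro ⟨h1, h2⟩
      obtain ⟨t, rfl⟩ := mem_rows.mp (mem_both h2 h1).1
      exact ⟨t, h2, rfl⟩
    · rintro ⟨t, h1, rfl⟩
      exact ⟨mem_union_left _ (mem_rows.mpr ⟨t, rfl⟩), h1⟩
  have e2 : cols c ∩ cols d = B.map c.2 := by
    ext j
    simp only [mem_inter, mem_map, hB, mem_filter, mem_univ, true_and]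
    constructor
    · rintro ⟨h1, h2⟩
      obtain ⟨t, rfl⟩ := mem_cols.mp h1
      exact ⟨t, h2, rfl⟩
    · rintro ⟨t, h1, rfl⟩
      exact ⟨mem_cols.mpr ⟨t, rfl⟩, h1⟩
  have hAB : A ⊆ B := by
    intro t ht
    simp only [hA, mem_filter, mem_univ, true_and] at ht
    simp only [hB, mem_filter, mem_univ, true_and]
    rw [deg_eq_zero] at ht
    have h1 : c.2 t ∈ sec σ c (c.1 t) := by rw [sec_row]; simp
    rw [ht] at h1
    exact sec_subset h1
  have hAB' : ∀ t ∈ A, σ.symm t ∈ B := by
    intro t ht
    simp only [hA, mem_filter, mem_univ, true_and] at ht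
    simp only [hB, mem_filter, mem_univ, true_and]
    rw [deg_eq_zero] at ht
    have h1 : c.2 (σ.symm t) ∈ sec σ c (c.1 t) := by rw [sec_row]; simp
    rw [ht] at h1
    exact sec_subset h1
  rw [e1, card_map]
  rw [e2, card_map]
  by_contra hcon
  push Not at hcon
  have hEq : A = B := eq_of_subset_of_card_le hAB hcon
  have hBne : B.Nonempty := by
    rw [e2] at hb
    simpa using hb
  have hall : A = univ := h.all' A (hEq ▸ hBne) (fun t ht => by
    have := hAB' t ht
    rwa [← hEq] at this)
  apply hne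
  have hsub : edges σ c ⊆ edges σ d := by
    rintro ⟨i, j⟩ hp
    have hi : ∃ t, c.1 t = i := by
      rw [mem_edges] at hp
      obtain ⟨t, -, h1 | h1⟩ := hp
      · exact ⟨t, h1⟩
      · exact ⟨σ t, h1⟩
    obtain ⟨t, rfl⟩ := hi
    have ht : t ∈ A := by rw [hall]; simp
    simp only [hA, mem_filter, mem_univ, true_and] at ht
    rw [deg_eq_zero] at ht
    rw [← mem_sec, ← ht, mem_sec]
    exact hp
  exact eq_of_subset_of_card_le hsub (by rw [card_edges h, card_edges h])

/-- the number of rows with positive degree -/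
def pos (σ : Equiv.Perm T) (c d : Cyc T n N) : ℕ := (univ.filter fun i => deg σ c d i ≠ 0).card

theorem pos_add (c d : Cyc T n N) :
    pos σ c d + ((rows c ∪ rows d).filter fun i => deg σ c d i = 0).card +
      (rows c ∩ rows d).card = 2 * Fintype.card T := by
  have e1 : (univ.filter fun i => deg σ c d i ≠ 0) =
      (rows c ∪ rows d).filter fun i => ¬ deg σ c d i = 0 := by
    ext i
    simp only [mem_filter, mem_univ, true_and]
    constructor
    · intro h
      refine ⟨?_, h⟩
      by_contra h1
      rw [mem_union, not_or] at h1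
      apply h
      rw [deg_eq_zero, sec_empty h1.1, sec_empty h1.2]
    · exact fun h => h.2
  have e2 := card_filter_add_card_filter_not (s := rows c ∪ rows d) (fun i => deg σ c d i = 0)
  have e3 := card_union_add_card_inter (rows c) (rows d)
  rw [card_rows, card_rows] at e3
  rw [pos, e1]
  omega

/-- two different overlapping cycles with a common column -/
theorem pos_large (h : Single σ) {c d : Cyc T n N} (hne : edges σ c ≠ edges σ d)
    (hb : (cols c ∩ cols d).Nonempty) :
    2 * Fintype.card T + 1 ≤ pos σ c d + (rows c ∩ rows d).card + (cols c ∩ cols d).card := by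
  have h1 := pos_add (σ := σ) c d
  have h2 := card_zero_lt h hne hb
  omega

theorem deg_four {c d : Cyc T n N} (h : Single σ) (hb : cols c ∩ cols d = ∅) {i : Fin n}
    (hi : i ∈ rows c ∩ rows d) : deg σ c d i = 4 := by
  rw [mem_inter] at hi
  have hd : Disjoint (sec σ c i) (sec σ d i) := by
    rw [disjoint_left]
    intro j h1 h2
    have : j ∈ cols c ∩ cols d := mem_inter.mpr ⟨sec_subset h1, sec_subset h2⟩
    rw [hb] at this
    simp at this
  have h1 : (sec σ c i).card = 2 := by
    rcases card_sec h c i with h1 | h1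
    · exact absurd h1 (card_pos.mpr (sec_nonempty hi.1)).ne'
    · exact h1
  have h2 : (sec σ d i).card = 2 := by
    rcases card_sec h d i with h1 | h1
    · exact absurd h1 (card_pos.mpr (sec_nonempty hi.2)).ne'
    · exact h1
  rw [deg, symmDiff_def, sup_eq_union, card_union_of_disjoint disjoint_sdiff_sdiff,
    sdiff_eq_self_of_disjoint hd, sdiff_eq_self_of_disjoint hd.symm, h1, h2]

/-- two cycles without a common column -/
theorem pos_disjoint {c d : Cyc T n N} (h : Single σ) (hb : cols c ∩ cols d = ∅) :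
    pos σ c d + (rows c ∩ rows d).card = 2 * Fintype.card T := by
  have h1 := pos_add (σ := σ) c d
  have h2 : ((rows c ∪ rows d).filter fun i => deg σ c d i = 0) = ∅ := by
    rw [filter_eq_empty_iff]
    intro i hi h0
    have h3 := mem_both h0 hi
    have h4 := deg_four h hb (mem_inter.mpr h3)
    omega
  rw [h2, card_empty] at h1
  omega

end Pool.Agent.Q326.SP
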