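import Mathlib

set_option autoImplicit false

/-! # The spiked Wishart model with a sparse spike

`Data n N` is the space of `n × N` matrices; `Y j i` is the entry in row `i` and column `j`. -/

namespace Pool.Agent.Q326.SP

open MeasureTheory ProbabilityTheory Matrix

/-- the real matrices with `n` rows and `N` columns; `Y j i` is the entry in row `i`, column `j` -/
abbrev Data (n N : ℕ) : Type := Fin N → Fin n → ℝ

/-- the null law: all entries are independent standard Gaussians -/
noncomputable def nullLaw (n N : ℕ) : Measure (Data n N) :=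
  Measure.pi fun _ => Measure.pi fun _ => gaussianReal 0 1

/-- the Gaussian law on `ℝ ^ n` with mean `0` and covariance matrix `1 + β x xᵀ` -/
noncomputable def columnLaw {n : ℕ} (β : ℝ) (x : Fin n → ℝ) : Measure (Fin n → ℝ) :=
  (multivariateGaussian 0 (1 + β • vecMulVec x x)).map WithLp.ofLp

/-- the probability that a coordinate of the spike is `s / √k`, for `s = -1, 0, 1` -/
noncomputable def spikeProb (n : ℕ) (k : ℝ) (s : SignType) : ℝ :=
  if s = 0 then 1 - k / n else k / (2 * n)

/-- the planted law: the spike `x` has independent coordinates, which are `1 / √k` and `-1 / √k`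
with probability `k / (2 n)` each and `0` with probability `1 - k / n`, and given `x` the columns
are independent with law `columnLaw β x` -/
noncomputable def plantedLaw (β k : ℝ) (n N : ℕ) : Measure (Data n N) :=
  ∑ s : Fin n → SignType, ENNReal.ofReal (∏ i, spikeProb n k (s i)) •
    Measure.pi fun _ : Fin N => columnLaw β fun i => (s i : ℝ) / √k

/-- the value of a polynomial in the entries of the matrix -/
noncomputable def value {n N : ℕ} (f : MvPolynomial (Fin n × Fin N) ℝ) (Y : Data n N) : ℝ :=
  MvPolynomial.eval (fun p => Y p.2 p.1) f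

/-! ### the column law as the law of `z + √β g x` -/

variable {n : ℕ}

/-- the map `(z, g) ↦ z + √β g x` -/
noncomputable def shiftMap (β : ℝ) (x : Fin n → ℝ) (p : (Fin n → ℝ) × ℝ) : Fin n → ℝ :=
  fun i => p.1 i + √β * x i * p.2

theorem measurable_shiftMap (β : ℝ) (x : Fin n → ℝ) : Measurable (shiftMap β x) := by
  unfold shiftMap
  fun_prop

/-- the standard Gaussian law on pairs `(z, g)` -/
noncomputable def base (n : ℕ) : Measure ((Fin n → ℝ) × ℝ) :=
  (Measure.pi fun _ => gaussianReal 0 1).prod (gaussianReal 0 1)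

instance : IsProbabilityMeasure (base n) := by
  unfold base; infer_instance

theorem posSemidef_cov {β : ℝ} (hβ : 0 ≤ β) (x : Fin n → ℝ) :
    (1 + β • vecMulVec x x).PosSemidef := by
  refine Matrix.PosSemidef.add Matrix.PosSemidef.one (Matrix.PosSemidef.smul ?_ hβ)
  have := Matrix.posSemidef_vecMulVec_self_star x
  simpa using this

open Complex in
theorem multivariateGaussian_eq {β : ℝ} (hβ : 0 ≤ β) (x : Fin n → ℝ) :
    multivariateGaussian 0 (1 + β • vecMulVec x x) =
      (base n).map (fun p => WithLp.toLp 2 (shiftMap β x p)) := by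
  have hm : Measurable fun p : (Fin n → ℝ) × ℝ => WithLp.toLp 2 (shiftMap β x p) :=
    (PiLp.continuous_toLp 2 _).measurable.comp (measurable_shiftMap β x)
  have : IsFiniteMeasure ((base n).map (fun p => WithLp.toLp 2 (shiftMap β x p))) :=
    Measure.isFiniteMeasure_map _ _
  apply Measure.ext_of_charFun
  ext t
  rw [charFun_multivariateGaussian (posSemidef_cov hβ x), charFun_apply,
    integral_map hm.aemeasurable (by fun_prop)]
  have e1 : ∀ p : (Fin n → ℝ) × ℝ,
      cexp ((inner ℝ (WithLp.toLp 2 (shiftMap β x p)) t : ℝ) * I) =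
      (∏ i, cexp ((p.1 i * t i : ℝ) * I)) * cexp ((p.2 * (√β * ∑ i, x i * t i) : ℝ) * I) := by
    intro p
    rw [← Complex.exp_sum, ← Complex.exp_add]
    congr 1
    rw [← Finset.sum_mul, ← add_mul, PiLp.inner_apply]
    congr 1
    simp only [shiftMap, RCLike.inner_apply, conj_trivial]
    push_cast
    rw [Finset.mul_sum, Finset.mul_sum, ← Finset.sum_add_distrib]
    refine Finset.sum_congr rfl fun i _ => ?_
    ring
  simp_rw [e1]
  rw [base, integral_prod_mul (f := fun z : Fin n → ℝ => ∏ i, cexp ((z i * t i : ℝ) * I))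
    (g := fun g : ℝ => cexp ((g * (√β * ∑ i, x i * t i) : ℝ) * I)),
    integral_fintype_prod_eq_prod (f := fun i (y : ℝ) => cexp ((y * t i : ℝ) * I))]
  have e2 : ∀ a : ℝ, ∫ y, cexp ((y * a : ℝ) * I) ∂(gaussianReal 0 1) = cexp (-(a ^ 2 / 2 : ℝ)) := by
    intro a
    have h := charFun_gaussianReal (μ := 0) (v := 1) a
    rw [charFun_apply_real] at h
    have h' : (∫ y, cexp ((y * a : ℝ) * I) ∂(gaussianReal 0 1)) =
        ∫ y, cexp (a * y * I) ∂(gaussianReal 0 1) := by
      congr 1
      ext y
      congr 1
      push_cast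
      ring
    rw [h', h]
    congr 1
    simp
  simp_rw [e2]
  rw [← Complex.exp_sum, ← Complex.exp_add]
  congr 1
  have e3 : (t : Fin n → ℝ) ⬝ᵥ (1 + β • vecMulVec x x) *ᵥ (t : Fin n → ℝ) =
      ∑ i, t i ^ 2 + β * (∑ i, x i * t i) ^ 2 := by
    rw [add_mulVec, one_mulVec, dotProduct_add, smul_mulVec, dotProduct_smul, smul_eq_mul]
    congr 1
    · simp [dotProduct, sq]
    · congr 1
      rw [vecMulVec_mulVec, dotProduct_smul]
      simp [dotProduct, sq, mul_comm]
  rw [e3]
  simp only [inner_zero_right, ofReal_zero, zero_mul, zero_sub]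
  have hs : (√β) ^ 2 = β := Real.sq_sqrt hβ
  have e4 : (√β * ∑ i, x i * t i) ^ 2 = β * (∑ i, x i * t i) ^ 2 := by
    rw [mul_pow, hs]
  rw [e4]
  push_cast
  rw [Finset.sum_neg_distrib, ← Finset.sum_div]
  ring

theorem columnLaw_eq {β : ℝ} (hβ : 0 ≤ β) (x : Fin n → ℝ) :
    columnLaw β x = (base n).map (shiftMap β x) := by
  have hm : Measurable fun p : (Fin n → ℝ) × ℝ => WithLp.toLp 2 (shiftMap β x p) :=
    (PiLp.continuous_toLp 2 _).measurable.comp (measurable_shiftMap β x)
  rw [columnLaw, multivariateGaussian_eq hβ, Measure.map_map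
    (PiLp.continuous_ofLp 2 _).measurable hm]
  rfl

instance (β : ℝ) (x : Fin n → ℝ) : IsProbabilityMeasure (columnLaw β x) := by
  unfold columnLaw
  exact Measure.isProbabilityMeasure_map (PiLp.continuous_ofLp 2 _).measurable.aemeasurable

end Pool.Agent.Q326.SP
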