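import Pool.Agent.Q326.SP.Model

set_option autoImplicit false

/-! # Moments of the columns -/

namespace Pool.Agent.Q326.SP

open MeasureTheory ProbabilityTheory

/-- the standard Gaussian law on the line -/
noncomputable abbrev γ₁ : Measure ℝ := gaussianReal 0 1

theorem memLp_abs (C : ℝ) (M : ℕ) :
    MemLp (fun z : ℝ => 1 + C * |z|) (M : ENNReal) (gaussianReal 0 1) := by
  have h : MemLp (id : ℝ → ℝ) (M : ENNReal) (gaussianReal 0 1) :=
    memLp_id_gaussianReal' (M : ENNReal) (by simp)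
  have h2 : MemLp (fun z : ℝ => |z|) (M : ENNReal) (gaussianReal 0 1) := h.norm
  have h3 : MemLp (fun z : ℝ => C * |z|) (M : ENNReal) (gaussianReal 0 1) := h2.const_mul C
  have h4 : MemLp (fun _ : ℝ => (1 : ℝ)) (M : ENNReal) (gaussianReal 0 1) := memLp_const 1
  exact h4.add h3

theorem integrable_abs_pow (C : ℝ) (hC : 0 ≤ C) (M : ℕ) :
    Integrable (fun z : ℝ => (1 + C * |z|) ^ M) γ₁ := by
  have h := (memLp_abs C M).integrable_norm_pow'
  refine h.congr (Filter.Eventually.of_forall fun z => ?_)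
  simp only [Real.norm_eq_abs]
  rw [abs_of_nonneg (by positivity)]

/-- the moments of `z + c` -/
noncomputable def mom (m : ℕ) (c : ℝ) : ℝ := ∫ z, (z + c) ^ m ∂γ₁

theorem integrable_pow_add (c : ℝ) (m : ℕ) : Integrable (fun z : ℝ => (z + c) ^ m) γ₁ := by
  have h : MemLp (fun z : ℝ => z + c) m γ₁ :=
    (memLp_id_gaussianReal' (m : ENNReal) (by simp)).add (memLp_const c)
  have h2 := h.integrable_norm_pow'
  refine h2.mono (by fun_prop) (Filter.Eventually.of_forall fun z => ?_)
  simp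

theorem mom_zero (c : ℝ) : mom 0 c = 1 := by simp [mom]

theorem integrable_id' : Integrable (fun z : ℝ => z) γ₁ := by
  simpa using integrable_pow_add 0 1

theorem integrable_sq' : Integrable (fun z : ℝ => z ^ 2) γ₁ := by
  simpa using integrable_pow_add 0 2

theorem integral_id' : ∫ z, z ∂γ₁ = 0 := by simp

theorem integral_sq' : ∫ z, z ^ 2 ∂γ₁ = 1 := by
  have h := variance_id_gaussianReal (μ := 0) (v := 1)
  rw [variance_eq_sub (memLp_id_gaussianReal' 2 (by simp))] at h
  have h2 : (∫ z, id z ∂γ₁) = 0 := integral_id'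
  have h3 : ∫ x, ((id : ℝ → ℝ) ^ 2) x ∂γ₁ = ∫ x, x ^ 2 ∂γ₁ := rfl
  rw [h3, h2] at h
  simpa using h

theorem mom_one (c : ℝ) : mom 1 c = c := by
  simp only [mom, pow_one]
  rw [integral_add integrable_id' (integrable_const _), integral_id']
  simp

theorem mom_two (c : ℝ) : mom 2 c = 1 + c ^ 2 := by
  have e : ∀ z : ℝ, (z + c) ^ 2 = z ^ 2 + (2 * c * z + c ^ 2) := by intro z; ring
  simp only [mom, e]
  have h1 : Integrable (fun z : ℝ => 2 * c * z) γ₁ := integrable_id'.const_mul (2 * c)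
  have h2 : Integrable (fun z : ℝ => 2 * c * z + c ^ 2) γ₁ := h1.add (integrable_const _)
  rw [integral_add integrable_sq' h2, integral_add h1 (integrable_const _), integral_sq',
    integral_const_mul, integral_id']
  simp

variable {n : ℕ}

theorem integrable_base (c : Fin n → ℝ) (α : Fin n → ℕ) :
    Integrable (fun p : (Fin n → ℝ) × ℝ => ∏ i, (p.1 i + c i * p.2) ^ α i) (base n) := by
  set C : ℝ := ∑ i, |c i| with hC
  have hC0 : 0 ≤ C := Finset.sum_nonneg fun i _ => abs_nonneg _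
  have h1 : Integrable (fun z : Fin n → ℝ => ∏ i, (1 + 1 * |z i|) ^ α i)
      (Measure.pi fun _ => γ₁) :=
    Integrable.fintype_prod (f := fun i (y : ℝ) => (1 + 1 * |y|) ^ α i)
      fun i => integrable_abs_pow 1 zero_le_one (α i)
  have h2 : Integrable (fun g : ℝ => (1 + C * |g|) ^ (∑ i, α i)) γ₁ :=
    integrable_abs_pow C hC0 _
  have h3 := h1.mul_prod h2
  refine h3.mono ?_ (Filter.Eventually.of_forall fun p => ?_)
  · have : Measurable fun p : (Fin n → ℝ) × ℝ => ∏ i, (p.1 i + c i * p.2) ^ α i := by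
      fun_prop
    exact this.aestronglyMeasurable
  · simp only [norm_mul, norm_prod, norm_pow, Real.norm_eq_abs]
    rw [← Finset.prod_pow_eq_pow_sum, ← Finset.prod_mul_distrib]
    refine Finset.prod_le_prod (fun i _ => by positivity) fun i _ => ?_
    rw [← mul_pow]
    refine pow_le_pow_left₀ (abs_nonneg _) ?_ _
    have h4 : |c i| ≤ C := Finset.single_le_sum (f := fun i => |c i|)
      (fun i _ => abs_nonneg _) (Finset.mem_univ i)
    have h5 : |p.1 i + c i * p.2| ≤ |p.1 i| + |c i| * |p.2| := by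
      refine (abs_add_le _ _).trans ?_
      rw [abs_mul]
    have h6 : |c i| * |p.2| ≤ C * |p.2| := mul_le_mul_of_nonneg_right h4 (abs_nonneg _)
    rw [abs_of_nonneg (by positivity : 0 ≤ 1 + 1 * |p.1 i|),
      abs_of_nonneg (by positivity : 0 ≤ 1 + C * |p.2|)]
    nlinarith [abs_nonneg (p.1 i), abs_nonneg p.2, mul_nonneg (abs_nonneg (p.1 i))
      (mul_nonneg hC0 (abs_nonneg p.2))]

theorem integrable_column {β : ℝ} (hβ : 0 ≤ β) (x : Fin n → ℝ) (α : Fin n → ℕ) :
    Integrable (fun y : Fin n → ℝ => ∏ i, y i ^ α i) (columnLaw β x) := by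
  have hm : Measurable fun y : Fin n → ℝ => ∏ i, y i ^ α i := by fun_prop
  rw [columnLaw_eq hβ, integrable_map_measure hm.aestronglyMeasurable
    (measurable_shiftMap β x).aemeasurable]
  exact integrable_base (fun i => √β * x i) α

/-- the moments of a column -/
theorem integral_column {β : ℝ} (hβ : 0 ≤ β) (x : Fin n → ℝ) (α : Fin n → ℕ) :
    ∫ y, ∏ i, y i ^ α i ∂(columnLaw β x) = ∫ g, ∏ i, mom (α i) (√β * x i * g) ∂γ₁ := by
  have hm : Measurable fun y : Fin n → ℝ => ∏ i, y i ^ α i := by fun_prop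
  rw [columnLaw_eq hβ, integral_map (measurable_shiftMap β x).aemeasurable
    hm.aestronglyMeasurable]
  have h := integrable_base (fun i => √β * x i) α
  have h2 := integral_prod_symm _ h
  refine h2.trans ?_
  congr 1
  ext g
  exact integral_fintype_prod_eq_prod (𝕜 := ℝ) (fun i (z : ℝ) => (z + √β * x i * g) ^ α i)

theorem integrable_gauss {N : ℕ} (α : Fin N → Fin n → ℕ) :
    Integrable (fun Y : Data n N => ∏ j, ∏ i, Y j i ^ α j i) (nullLaw n N) := by
  refine Integrable.fintype_prod (f := fun j (y : Fin n → ℝ) => ∏ i, y i ^ α j i) fun j => ?_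
  refine Integrable.fintype_prod (f := fun i (y : ℝ) => y ^ α j i) fun i => ?_
  simpa using integrable_pow_add 0 (α j i)

theorem integral_gauss {N : ℕ} (α : Fin N → Fin n → ℕ) :
    ∫ Y, ∏ j, ∏ i, Y j i ^ α j i ∂(nullLaw n N) = ∏ j, ∏ i, mom (α j i) 0 := by
  unfold nullLaw
  rw [integral_fintype_prod_eq_prod (𝕜 := ℝ) (fun j (y : Fin n → ℝ) => ∏ i, y i ^ α j i)]
  refine Finset.prod_congr rfl fun j _ => ?_
  rw [integral_fintype_prod_eq_prod (𝕜 := ℝ) (fun i (y : ℝ) => y ^ α j i)]
  refine Finset.prod_congr rfl fun i _ => ?_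
  simp [mom]

end Pool.Agent.Q326.SP
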