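import Pool.Agent.Q326.SP.Second

set_option autoImplicit false
set_option linter.unusedSectionVars false

/-! # The first two moments of the sum over all cycles -/

namespace Pool.Agent.Q326.SP

open MeasureTheory ProbabilityTheory Finset

variable {T : Type} [Fintype T] [DecidableEq T] {σ : Equiv.Perm T} {n N : ℕ}

/-- indicator of the edges -/
def ind (σ : Equiv.Perm T) (c : Cyc T n N) (j : Fin N) (i : Fin n) : ℕ :=
  if (i, j) ∈ edges σ c then 1 else 0

/-- multiplicity in a pair of cycles -/
def mult (σ : Equiv.Perm T) (c d : Cyc T n N) (j : Fin N) (i : Fin n) : ℕ :=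
  ind σ c j i + ind σ d j i

theorem mult_le (c d : Cyc T n N) (j : Fin N) (i : Fin n) : mult σ c d j i ≤ 2 := by
  unfold mult ind
  split_ifs <;> omega

theorem mult_eq_one {c d : Cyc T n N} {j : Fin N} {i : Fin n} :
    mult σ c d j i = 1 ↔ j ∈ symmDiff (sec σ c i) (sec σ d i) := by
  rw [mem_symmDiff, mem_sec, mem_sec]
  unfold mult ind
  split_ifs <;> simp_all

theorem row_count (c d : Cyc T n N) (i : Fin n) :
    (univ.filter fun j => mult σ c d j i = 1).card = deg σ c d i := by
  unfold deg
  congr 1
  ext j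
  simp [mult_eq_one]

/-- the product over the edges of a cycle -/
noncomputable def mono (σ : Equiv.Perm T) (c : Cyc T n N) (Y : Data n N) : ℝ :=
  ∏ p ∈ edges σ c, Y p.2 p.1

theorem mono_eq (c : Cyc T n N) (Y : Data n N) :
    mono σ c Y = ∏ j, ∏ i, Y j i ^ ind σ c j i := by
  have e1 : mono σ c Y = ∏ p : Fin n × Fin N, Y p.2 p.1 ^ ind σ c p.2 p.1 := by
    unfold mono ind
    rw [← Finset.prod_filter_mul_prod_filter_not univ (fun p => p ∈ edges σ c)]
    have h1 : ∏ p ∈ univ.filter (fun p => ¬ p ∈ edges σ c),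
        Y p.2 p.1 ^ (if (p.1, p.2) ∈ edges σ c then 1 else 0) = 1 := by
      refine Finset.prod_eq_one fun p hp => ?_
      rw [mem_filter] at hp
      rw [if_neg hp.2, pow_zero]
    rw [h1, mul_one, Finset.filter_mem_eq_inter, univ_inter]
    refine Finset.prod_congr rfl fun p hp => ?_
    rw [if_pos hp, pow_one]
  rw [e1, Fintype.prod_prod_type_right]

theorem mono_mul (c d : Cyc T n N) (Y : Data n N) :
    mono σ c Y * mono σ d Y = ∏ j, ∏ i, Y j i ^ mult σ c d j i := by
  rw [mono_eq, mono_eq, ← Finset.prod_mul_distrib]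
  refine Finset.prod_congr rfl fun j _ => ?_
  rw [← Finset.prod_mul_distrib]
  exact Finset.prod_congr rfl fun i _ => (pow_add _ _ _).symm

/-! ### the null law -/

theorem null_mono (h : Single σ) [Nonempty T] (c : Cyc T n N) :
    ∫ Y, mono σ c Y ∂(nullLaw n N) = 0 := by
  simp_rw [mono_eq]
  rw [integral_gauss]
  obtain ⟨t⟩ := (inferInstance : Nonempty T)
  refine Finset.prod_eq_zero (mem_univ (c.2 t)) (Finset.prod_eq_zero (mem_univ (c.1 t)) ?_)
  have h1 : ind σ c (c.2 t) (c.1 t) = 1 := by
    unfold ind
    rw [if_pos (mem_edges_col.mpr (Or.inl rfl))]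
  rw [h1, mom_one]

theorem null_pair (c d : Cyc T n N) :
    ∫ Y, mono σ c Y * mono σ d Y ∂(nullLaw n N) = if edges σ c = edges σ d then 1 else 0 := by
  simp_rw [mono_mul]
  rw [integral_gauss]
  split_ifs with he
  · refine Finset.prod_eq_one fun j _ => Finset.prod_eq_one fun i _ => ?_
    unfold mult ind
    rw [he]
    split_ifs
    · rw [mom_two]; simp
    · rw [mom_zero]
  · have h1 : ∃ p, ¬ (p ∈ edges σ c ↔ p ∈ edges σ d) := by
      by_contra hcon
      push Not at hcon
      exact he (Finset.ext hcon)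
    obtain ⟨⟨i, j⟩, hp⟩ := h1
    refine Finset.prod_eq_zero (mem_univ j) (Finset.prod_eq_zero (mem_univ i) ?_)
    have h2 : mult σ c d j i = 1 := by
      unfold mult ind
      by_cases h3 : (i, j) ∈ edges σ c <;> by_cases h4 : (i, j) ∈ edges σ d <;> simp_all
    rw [h2, mom_one]

/-! ### the first moment under the planted law -/

theorem prod_over_cols (c : Cyc T n N) (f : Fin N → ℝ) (hf : ∀ j, j ∉ cols c → f j = 1) :
    ∏ j, f j = ∏ t, f (c.2 t) := by
  have h1 : ∏ t, f (c.2 t) = ∏ j ∈ cols c, f j := by
    rw [cols, Finset.prod_map]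
  rw [h1]
  exact (Finset.prod_subset (subset_univ _) fun j _ hj => hf j hj).symm

theorem prod_over_rows (c : Cyc T n N) (f : Fin n → ℝ) (hf : ∀ j, j ∉ rows c → f j = 1) :
    ∏ j, f j = ∏ t, f (c.1 t) := by
  have h1 : ∏ t, f (c.1 t) = ∏ j ∈ rows c, f j := by
    rw [rows, Finset.prod_map]
  rw [h1]
  exact (Finset.prod_subset (subset_univ _) fun j _ hj => hf j hj).symm

theorem ind_col (h : Single σ) (c : Cyc T n N) (t : T) (F : Fin n → ℝ) :
    (∏ i, if ind σ c (c.2 t) i = 1 then F i else 1) = F (c.1 t) * F (c.1 (σ t)) := by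
  have h1 : ∀ i, (ind σ c (c.2 t) i = 1) ↔ i ∈ ({c.1 t, c.1 (σ t)} : Finset (Fin n)) := by
    intro i
    unfold ind
    rw [← csec_col, mem_csec]
    split_ifs with h2 <;> simp [h2]
  simp_rw [h1]
  rw [Finset.prod_ite, Finset.prod_const_one, mul_one, Finset.filter_mem_eq_inter, univ_inter,
    Finset.prod_pair]
  exact fun h2 => h.ne t (c.1.injective h2).symm

theorem pm_single {β k : ℝ} (h : Single σ) (hβ : 0 ≤ β) (hk : 0 < k) (hn : n ≠ 0)
    (c : Cyc T n N) : pm β k (ind σ c) = (β / n) ^ Fintype.card T := by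
  unfold pm
  have e1 : ∀ s : Fin n → SignType,
      ∏ j, ∫ g, ∏ i, mom (ind σ c j i) (√β * ((s i : ℝ) / √k) * g) ∂γ₁ =
      β ^ Fintype.card T * ∏ t, |(s (c.1 t) : ℝ) / √k| ^ 2 := by
    intro s
    rw [prod_over_cols c]
    · have e2 : ∀ t, ∫ g, ∏ i, mom (ind σ c (c.2 t) i) (√β * ((s i : ℝ) / √k) * g) ∂γ₁ =
          β * (((s (c.1 t) : ℝ) / √k) * ((s (c.1 (σ t)) : ℝ) / √k)) := by
        intro t
        have e3 : ∀ g : ℝ, ∏ i, mom (ind σ c (c.2 t) i) (√β * ((s i : ℝ) / √k) * g) =
            (β * (((s (c.1 t) : ℝ) / √k) * ((s (c.1 (σ t)) : ℝ) / √k))) * g ^ 2 := by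
          intro g
          have e4 : ∀ i, mom (ind σ c (c.2 t) i) (√β * ((s i : ℝ) / √k) * g) =
              if ind σ c (c.2 t) i = 1 then √β * ((s i : ℝ) / √k) * g else 1 := by
            intro i
            unfold ind
            split_ifs with h1
            · rw [mom_one]
            · simp_all
            · simp_all
            · rw [mom_zero]
          simp_rw [e4]
          rw [ind_col h c t (fun i => √β * ((s i : ℝ) / √k) * g)]
          calc √β * ((s (c.1 t) : ℝ) / √k) * g * (√β * ((s (c.1 (σ t)) : ℝ) / √k) * g)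
              = (√β * √β) * (((s (c.1 t) : ℝ) / √k) * ((s (c.1 (σ t)) : ℝ) / √k)) * g ^ 2 := by
                ring
            _ = _ := by rw [Real.mul_self_sqrt hβ]
        simp_rw [e3]
        rw [integral_const_mul, integral_sq', mul_one]
      simp_rw [e2]
      rw [Finset.prod_mul_distrib, Finset.prod_const, card_univ, Finset.prod_mul_distrib,
        Equiv.prod_comp σ (fun t => (s (c.1 t) : ℝ) / √k), ← Finset.prod_mul_distrib]
      congr 1
      refine Finset.prod_congr rfl fun t _ => ?_
      rw [sq_abs, sq]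
    · intro j hj
      have e3 : ∀ i, ind σ c j i = 0 := by
        intro i
        unfold ind
        rw [if_neg]
        intro h1
        exact hj (sec_subset (mem_sec.mpr h1))
      simp_rw [e3, mom_zero]
      simp
  simp_rw [e1]
  have e5 : ∀ s : Fin n → SignType, (∏ i, spikeProb n k (s i)) *
      (β ^ Fintype.card T * ∏ t, |(s (c.1 t) : ℝ) / √k| ^ 2) =
      β ^ Fintype.card T * ∏ i, (spikeProb n k (s i) *
        |(s i : ℝ) / √k| ^ (if i ∈ rows c then 2 else 0)) := by
    intro s
    rw [Finset.prod_mul_distrib,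
      prod_over_rows c (fun i => |(s i : ℝ) / √k| ^ (if i ∈ rows c then 2 else 0))]
    · have : ∀ t, (if c.1 t ∈ rows c then 2 else 0) = 2 := fun t =>
        if_pos (mem_rows.mpr ⟨t, rfl⟩)
      simp_rw [this]
      ring
    · intro i hi
      rw [if_neg hi, pow_zero]
  simp_rw [e5]
  rw [← Finset.mul_sum, sum_spike (fun i a => spikeProb n k a *
    |(a : ℝ) / √k| ^ (if i ∈ rows c then 2 else 0))]
  have e6 : ∀ i, ∑ a : SignType, spikeProb n k a *
      |(a : ℝ) / √k| ^ (if i ∈ rows c then 2 else 0) = if i ∈ rows c then (1 / n : ℝ) else 1 := by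
    intro i
    by_cases hi : i ∈ rows c
    · rw [if_pos hi, if_pos hi]
      exact amom_two hk
    · rw [if_neg hi, if_neg hi]
      exact amom_zero hn
  simp_rw [e6]
  rw [Finset.prod_ite, Finset.prod_const_one, mul_one, Finset.prod_const,
    Finset.filter_mem_eq_inter, univ_inter, card_rows, ← mul_pow]
  congr 1
  ring

/-! ### pairs of cycles under the planted law -/

/-- the product over the columns of the bounds -/
noncomputable def kprod (σ : Equiv.Perm T) (β k : ℝ) (c d : Cyc T n N) : ℝ :=
  ∏ j, kap β k (univ.filter fun i => mult σ c d j i = 1).card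
        (univ.filter fun i => mult σ c d j i = 2).card

theorem kap_nonneg {β k : ℝ} (hβ : 0 ≤ β) (hk : 0 ≤ k) (a b : ℕ) : 0 ≤ kap β k a b :=
  integral_nonneg fun g => maj_nonneg hβ hk a b g

theorem kprod_nonneg {β k : ℝ} (hβ : 0 ≤ β) (hk : 0 ≤ k) (c d : Cyc T n N) :
    0 ≤ kprod σ β k c d := Finset.prod_nonneg fun j _ => kap_nonneg hβ hk _ _

theorem mult_zero_of_not {c d : Cyc T n N} {j : Fin N} (hc : j ∉ cols c) (hd : j ∉ cols d)
    (i : Fin n) : mult σ c d j i = 0 := by
  unfold mult ind
  rw [if_neg fun h1 => hc (sec_subset (mem_sec.mpr h1)),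
    if_neg fun h1 => hd (sec_subset (mem_sec.mpr h1))]

theorem csec_card_le (h : Single σ) (c : Cyc T n N) (j : Fin N) : (csec σ c j).card ≤ 2 := by
  by_cases hj : ∃ t, c.2 t = j
  · obtain ⟨t, rfl⟩ := hj
    exact (card_csec h c t).le
  · push Not at hj
    rw [csec_not hj]
    simp

theorem col_one_le (h : Single σ) (c d : Cyc T n N) (j : Fin N) :
    (univ.filter fun i => mult σ c d j i = 1).card ≤ 4 := by
  have h1 : (univ.filter fun i => mult σ c d j i = 1) ⊆ csec σ c j ∪ csec σ d j := by
    intro i hi
    simp only [mem_filter, mem_univ, true_and] at hi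
    rw [mem_union, mem_csec, mem_csec]
    unfold mult ind at hi
    by_contra hcon
    rw [not_or] at hcon
    rw [if_neg hcon.1, if_neg hcon.2] at hi
    omega
  have h2 := card_le_card h1
  have h3 := card_union_le (csec σ c j) (csec σ d j)
  have h4 := csec_card_le h c j
  have h5 := csec_card_le h d j
  omega

theorem col_two_le (h : Single σ) (c d : Cyc T n N) (j : Fin N) :
    (univ.filter fun i => mult σ c d j i = 2).card ≤ 2 := by
  have h1 : (univ.filter fun i => mult σ c d j i = 2) ⊆ csec σ c j := by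
    intro i hi
    simp only [mem_filter, mem_univ, true_and] at hi
    rw [mem_csec]
    unfold mult ind at hi
    by_contra hcon
    rw [if_neg hcon] at hi
    split_ifs at hi <;> omega
  exact (card_le_card h1).trans (csec_card_le h c j)

theorem kprod_le {β k : ℝ} (h : Single σ) (hβ : 0 ≤ β) (hk : 1 ≤ k) (c d : Cyc T n N) :
    kprod σ β k c d ≤ bigK β ^ (2 * Fintype.card T) := by
  unfold kprod
  have h1 : ∀ j, kap β k (univ.filter fun i => mult σ c d j i = 1).card
        (univ.filter fun i => mult σ c d j i = 2).card ≤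
      if j ∈ cols c ∪ cols d then bigK β else 1 := by
    intro j
    split_ifs with hj
    · exact kap_le hβ hk (col_one_le h c d j) (col_two_le h c d j)
    · rw [mem_union, not_or] at hj
      have h2 : ∀ i, mult σ c d j i = 0 := mult_zero_of_not hj.1 hj.2
      simp_rw [h2]
      simp [kap_zero]
  refine (Finset.prod_le_prod (fun j _ => kap_nonneg hβ (by linarith) _ _)
    fun j _ => h1 j).trans ?_
  rw [Finset.prod_ite, Finset.prod_const_one, mul_one, Finset.prod_const,
    Finset.filter_mem_eq_inter, univ_inter]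
  refine pow_le_pow_right₀ (one_le_bigK hβ) ?_
  refine (card_union_le _ _).trans ?_
  rw [card_cols, card_cols]
  omega

theorem kprod_disjoint {β k : ℝ} (h : Single σ) (hβ : 0 ≤ β) (c d : Cyc T n N)
    (hcd : cols c ∩ cols d = ∅) : kprod σ β k c d = β ^ (2 * Fintype.card T) := by
  unfold kprod
  have h0 : ∀ j, kap β k (univ.filter fun i => mult σ c d j i = 1).card
        (univ.filter fun i => mult σ c d j i = 2).card =
      if j ∈ cols c ∪ cols d then β else 1 := by
    intro j
    split_ifs with hj
    · have key : ∀ (c d : Cyc T n N), cols c ∩ cols d = ∅ → j ∈ cols c →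
          (∀ i, mult σ c d j i = ind σ c j i) := by
        intro c d hcd hj i
        have h2 : ind σ d j i = 0 := by
          unfold ind
          rw [if_neg]
          intro h3
          have : j ∈ cols c ∩ cols d := mem_inter.mpr ⟨hj, sec_subset (mem_sec.mpr h3)⟩
          rw [hcd] at this
          simp at this
        rw [mult, h2, add_zero]
      have key2 : ∀ (c : Cyc T n N), j ∈ cols c →
          (univ.filter fun i => ind σ c j i = 1).card = 2 ∧
          (univ.filter fun i => ind σ c j i = 2).card = 0 := by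
        intro c hj
        obtain ⟨t, rfl⟩ := mem_cols.mp hj
        constructor
        · refine Eq.trans (congrArg Finset.card ?_) (card_csec h c t)
          ext i
          rw [Finset.mem_filter, mem_csec, ind]
          split_ifs with h1 <;> simp [h1]
        · rw [card_eq_zero, filter_eq_empty_iff]
          intro i _
          rw [ind]
          split_ifs <;> decide
      have hmc : ∀ i, mult σ c d j i = mult σ d c j i := fun i => by
        unfold mult; ring
      rw [mem_union] at hj
      rcases hj with hj | hj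
      · simp_rw [key c d hcd hj]
        rw [(key2 c hj).1, (key2 c hj).2, kap_two_zero hβ]
      · simp_rw [hmc, key d c (by rw [inter_comm]; exact hcd) hj]
        rw [(key2 d hj).1, (key2 d hj).2, kap_two_zero hβ]
    · rw [mem_union, not_or] at hj
      have h2 : ∀ i, mult σ c d j i = 0 := mult_zero_of_not hj.1 hj.2
      simp_rw [h2]
      simp [kap_zero]
  simp_rw [h0]
  rw [Finset.prod_ite, Finset.prod_const_one, mul_one, Finset.prod_const,
    Finset.filter_mem_eq_inter, univ_inter, card_union_of_disjoint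
      (disjoint_iff_inter_eq_empty.mpr hcd), card_cols, card_cols]
  congr 1
  ring

theorem kprod_same {β k : ℝ} (h : Single σ) (c d : Cyc T n N)
    (hcd : edges σ c = edges σ d) : kprod σ β k c d = kap β k 0 2 ^ Fintype.card T := by
  unfold kprod
  have hm : ∀ j i, mult σ c d j i = 2 * ind σ c j i := by
    intro j i
    unfold mult ind
    rw [← hcd]
    ring
  have h0 : ∀ j, kap β k (univ.filter fun i => mult σ c d j i = 1).card
        (univ.filter fun i => mult σ c d j i = 2).card =
      if j ∈ cols c then kap β k 0 2 else 1 := by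
    intro j
    simp_rw [hm]
    have h1 : (univ.filter fun i => 2 * ind σ c j i = 1) = ∅ := by
      rw [filter_eq_empty_iff]
      intro i _
      omega
    rw [h1, card_empty]
    split_ifs with hj
    · obtain ⟨t, rfl⟩ := mem_cols.mp hj
      refine congrArg (kap β k 0) (Eq.trans (congrArg Finset.card ?_) (card_csec h c t))
      ext i
      rw [Finset.mem_filter, mem_csec, ind]
      split_ifs with h1 <;> simp [h1]
    · have h2 : (univ.filter fun i => 2 * ind σ c j i = 2) = ∅ := by
        rw [filter_eq_empty_iff]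
        intro i _
        unfold ind
        rw [if_neg]
        · omega
        · intro h3
          exact hj (sec_subset (mem_sec.mpr h3))
      rw [h2, card_empty, kap_zero]
  simp_rw [h0]
  rw [Finset.prod_ite, Finset.prod_const_one, mul_one, Finset.prod_const,
    Finset.filter_mem_eq_inter, univ_inter, card_cols]

theorem pm_pair {β k : ℝ} (hβ : 0 ≤ β) (hk : 0 < k) (hkn : k ≤ n) (c d : Cyc T n N) :
    pm β k (mult σ c d) ≤ (∏ i, amom n k (deg σ c d i)) * kprod σ β k c d := by
  refine (pm_bound hβ hk hkn _ (mult_le c d)).trans (le_of_eq ?_)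
  simp_rw [row_count]
  rfl

theorem prod_amom_le {k : ℝ} (h : Single σ) (hk : 1 ≤ k) (hkn : k ≤ n) (hn : n ≠ 0)
    (c d : Cyc T n N) : ∏ i, amom n k (deg σ c d i) ≤ (1 / n : ℝ) ^ pos σ c d := by
  have h1 : ∀ i, amom n k (deg σ c d i) ≤ if deg σ c d i ≠ 0 then (1 / n : ℝ) else 1 := by
    intro i
    split_ifs with hi
    · exact amom_le hk (deg_even h c d i hi)
    · rw [not_not.mp hi, amom_zero hn]
  refine (Finset.prod_le_prod (fun i _ => amom_nonneg (by linarith) hkn _)
    fun i _ => h1 i).trans (le_of_eq ?_)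
  rw [Finset.prod_ite, Finset.prod_const_one, mul_one, Finset.prod_const]
  rfl

theorem prod_amom_le' {k : ℝ} (h : Single σ) (hk : 1 ≤ k) (hkn : k ≤ n) (hn : n ≠ 0)
    (c d : Cyc T n N) (i₀ : Fin n) (hi₀ : deg σ c d i₀ = 4) :
    ∏ i, amom n k (deg σ c d i) ≤ (1 / n : ℝ) ^ pos σ c d * (1 / k) := by
  have h1 : ∀ i, amom n k (deg σ c d i) ≤ (if deg σ c d i ≠ 0 then (1 / n : ℝ) else 1) *
      (if i = i₀ then 1 / k else 1) := by
    intro i
    by_cases hi : i = i₀
    · rw [hi, if_pos rfl, hi₀, if_pos (by omega), amom_four hk]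
    · rw [if_neg hi, mul_one]
      split_ifs with hi
      · exact amom_le hk (deg_even h c d i hi)
      · rw [not_not.mp hi, amom_zero hn]
  refine (Finset.prod_le_prod (fun i _ => amom_nonneg (by linarith) hkn _)
    fun i _ => h1 i).trans (le_of_eq ?_)
  rw [Finset.prod_mul_distrib, Finset.prod_ite, Finset.prod_const_one, mul_one,
    Finset.prod_const, Finset.prod_ite_eq' univ i₀ (fun _ => (1 / k : ℝ)), if_pos (mem_univ _)]
  rfl

/-- **the bound for pairs of cycles** -/
theorem pair_bound {β k : ℝ} (h : Single σ) (hβ : 0 ≤ β) (hk : 1 ≤ k) (hkn : k ≤ n)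
    (c d : Cyc T n N) :
    pm β k (mult σ c d) ≤ (β / n) ^ (2 * Fintype.card T) +
      (if edges σ c = edges σ d then kap β k 0 2 ^ Fintype.card T else 0) +
      bigK β ^ (2 * Fintype.card T) * (1 / n + 1 / k) * (1 / n : ℝ) ^ (2 * Fintype.card T) *
        (n : ℝ) ^ ((rows c ∩ rows d).card + (cols c ∩ cols d).card) := by
  have hk0 : (0 : ℝ) < k := by linarith
  have hn1 : (1 : ℝ) ≤ n := hk.trans hkn
  have hn : n ≠ 0 := by
    rintro rfl
    simp at hn1
    linarith
  have hK := one_le_bigK hβ
  have hkap : 0 ≤ kap β k 0 2 := kap_nonneg hβ hk0.le _ _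
  have hpos1 : 0 ≤ (β / n) ^ (2 * Fintype.card T) := by positivity
  have hpos3 : 0 ≤ bigK β ^ (2 * Fintype.card T) * (1 / n + 1 / k) *
      (1 / n : ℝ) ^ (2 * Fintype.card T) *
        (n : ℝ) ^ ((rows c ∩ rows d).card + (cols c ∩ cols d).card) := by positivity
  have hpos2 : (0 : ℝ) ≤ if edges σ c = edges σ d then kap β k 0 2 ^ Fintype.card T else 0 := by
    split_ifs
    · positivity
    · exact le_rfl
  have hmain := pm_pair hβ hk0 hkn c d (σ := σ)
  by_cases he : edges σ c = edges σ d
  · -- the same edges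
    rw [kprod_same h c d he] at hmain
    have h2 : ∏ i, amom n k (deg σ c d i) ≤ 1 := by
      refine (prod_amom_le h hk hkn hn c d).trans (pow_le_one₀ (by positivity) ?_)
      rw [div_le_one (by linarith)]
      exact hn1
    have h3 := mul_le_mul_of_nonneg_right h2
      (by positivity : 0 ≤ kap β k 0 2 ^ Fintype.card T)
    rw [one_mul] at h3
    rw [if_pos he] at *
    linarith
  · by_cases hb : (cols c ∩ cols d).Nonempty
    · -- a common column
      have h1 := pos_large h he hb
      have h2 := prod_amom_le h hk hkn hn c d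
      have h3 := kprod_le h hβ hk c d
      have h4 : (1 / n : ℝ) ^ pos σ c d ≤ (1 / n) * (1 / n : ℝ) ^ (2 * Fintype.card T) *
          (n : ℝ) ^ ((rows c ∩ rows d).card + (cols c ∩ cols d).card) := by
        have hn0 : (n : ℝ) ≠ 0 := by positivity
        have e1 : (1 / n : ℝ) ^ pos σ c d =
            (1 / n : ℝ) ^ (pos σ c d + ((rows c ∩ rows d).card + (cols c ∩ cols d).card)) *
            (n : ℝ) ^ ((rows c ∩ rows d).card + (cols c ∩ cols d).card) := by
          rw [pow_add, mul_assoc, ← mul_pow, one_div_mul_cancel hn0, one_pow, mul_one]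
        rw [e1, ← pow_succ']
        refine mul_le_mul_of_nonneg_right ?_ (by positivity)
        refine pow_le_pow_of_le_one (by positivity) ?_ (by omega)
        rw [div_le_one (by linarith)]
        exact hn1
      have h5 : (∏ i, amom n k (deg σ c d i)) * kprod σ β k c d ≤
          ((1 / n) * (1 / n : ℝ) ^ (2 * Fintype.card T) *
          (n : ℝ) ^ ((rows c ∩ rows d).card + (cols c ∩ cols d).card)) *
          bigK β ^ (2 * Fintype.card T) :=
        mul_le_mul (h2.trans h4) h3 (kprod_nonneg hβ hk0.le c d) (by positivity)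
      have h6 : ((1 / n) * (1 / n : ℝ) ^ (2 * Fintype.card T) *
          (n : ℝ) ^ ((rows c ∩ rows d).card + (cols c ∩ cols d).card)) *
          bigK β ^ (2 * Fintype.card T) ≤ bigK β ^ (2 * Fintype.card T) * (1 / n + 1 / k) *
      (1 / n : ℝ) ^ (2 * Fintype.card T) *
        (n : ℝ) ^ ((rows c ∩ rows d).card + (cols c ∩ cols d).card) := by
        have : 0 ≤ (1 / k) * ((1 / n : ℝ) ^ (2 * Fintype.card T) *
          (n : ℝ) ^ ((rows c ∩ rows d).card + (cols c ∩ cols d).card) *
          bigK β ^ (2 * Fintype.card T)) := by positivity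
        linarith
      linarith
    · rw [not_nonempty_iff_eq_empty] at hb
      have hkd := kprod_disjoint (k := k) h hβ c d hb
      have hpd := pos_disjoint h hb
      by_cases ha : (rows c ∩ rows d).Nonempty
      · -- a common row, no common column
        obtain ⟨i₀, hi₀⟩ := ha
        have h2 := prod_amom_le' h hk hkn hn c d i₀ (deg_four h hb hi₀)
        have h3 := kprod_le h hβ hk c d
        have h4 : (1 / n : ℝ) ^ pos σ c d ≤ (1 / n : ℝ) ^ (2 * Fintype.card T) *
            (n : ℝ) ^ ((rows c ∩ rows d).card + (cols c ∩ cols d).card) := by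
          have hn0 : (n : ℝ) ≠ 0 := by positivity
          have e1 : (1 / n : ℝ) ^ pos σ c d =
              (1 / n : ℝ) ^ (pos σ c d + ((rows c ∩ rows d).card + (cols c ∩ cols d).card)) *
              (n : ℝ) ^ ((rows c ∩ rows d).card + (cols c ∩ cols d).card) := by
            rw [pow_add, mul_assoc, ← mul_pow, one_div_mul_cancel hn0, one_pow, mul_one]
          rw [e1]
          refine mul_le_mul_of_nonneg_right ?_ (by positivity)
          refine pow_le_pow_of_le_one (by positivity) ?_ (by omega)
          rw [div_le_one (by linarith)]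
          exact hn1
        have h5 : (∏ i, amom n k (deg σ c d i)) * kprod σ β k c d ≤
            (((1 / n : ℝ) ^ (2 * Fintype.card T) *
            (n : ℝ) ^ ((rows c ∩ rows d).card + (cols c ∩ cols d).card)) * (1 / k)) *
            bigK β ^ (2 * Fintype.card T) := by
          refine mul_le_mul (h2.trans ?_) h3 (kprod_nonneg hβ hk0.le c d) (by positivity)
          exact mul_le_mul_of_nonneg_right h4 (by positivity)
        have h6 : (((1 / n : ℝ) ^ (2 * Fintype.card T) *
            (n : ℝ) ^ ((rows c ∩ rows d).card + (cols c ∩ cols d).card)) * (1 / k)) *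
            bigK β ^ (2 * Fintype.card T) ≤ bigK β ^ (2 * Fintype.card T) * (1 / n + 1 / k) *
            (1 / n : ℝ) ^ (2 * Fintype.card T) *
            (n : ℝ) ^ ((rows c ∩ rows d).card + (cols c ∩ cols d).card) := by
          have : 0 ≤ (1 / n) * ((1 / n : ℝ) ^ (2 * Fintype.card T) *
            (n : ℝ) ^ ((rows c ∩ rows d).card + (cols c ∩ cols d).card) *
            bigK β ^ (2 * Fintype.card T)) := by positivity
          linarith
        linarith
      · -- disjoint cycles
        rw [not_nonempty_iff_eq_empty] at ha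
        rw [ha, card_empty, add_zero] at hpd
        have h2 := prod_amom_le h hk hkn hn c d
        rw [hpd] at h2
        have h3 := mul_le_mul_of_nonneg_right h2 (kprod_nonneg (σ := σ) hβ hk0.le c d)
        rw [hkd] at h3 hmain
        have e1 : (1 / n : ℝ) ^ (2 * Fintype.card T) * β ^ (2 * Fintype.card T) =
            (β / n) ^ (2 * Fintype.card T) := by
          rw [← mul_pow]
          congr 1
          ring
        rw [e1] at h3
        linarith

end Pool.Agent.Q326.SP
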