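import Pool.Agent.Q326.SP.Moment
import Pool.Agent.Q326.SP.Cycle

set_option autoImplicit false
set_option linter.unusedSectionVars false

/-! # The moments of products of two cycles -/

namespace Pool.Agent.Q326.SP

open MeasureTheory ProbabilityTheory Finset

variable {n N : ℕ}

/-- the moments of the planted law -/
noncomputable def pm (β k : ℝ) (α : Fin N → Fin n → ℕ) : ℝ :=
  ∑ s : Fin n → SignType, (∏ i, spikeProb n k (s i)) *
    ∏ j, ∫ g, ∏ i, mom (α j i) (√β * ((s i : ℝ) / √k) * g) ∂γ₁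

theorem spikeProb_nonneg {k : ℝ} (hk : 0 ≤ k) (hkn : k ≤ n) (s : SignType) :
    0 ≤ spikeProb n k s := by
  unfold spikeProb
  split_ifs
  · have : k / n ≤ 1 := div_le_one_of_le₀ hkn (Nat.cast_nonneg n)
    linarith
  · positivity

theorem integrable_given {β : ℝ} (hβ : 0 ≤ β) (x : Fin n → ℝ) (α : Fin N → Fin n → ℕ) :
    Integrable (fun Y : Data n N => ∏ j, ∏ i, Y j i ^ α j i)
      (Measure.pi fun _ : Fin N => columnLaw β x) :=
  Integrable.fintype_prod (f := fun j (y : Fin n → ℝ) => ∏ i, y i ^ α j i) fun j =>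
    integrable_column hβ x (α j)

theorem integrable_planted {β : ℝ} (hβ : 0 ≤ β) (k : ℝ) (α : Fin N → Fin n → ℕ) :
    Integrable (fun Y : Data n N => ∏ j, ∏ i, Y j i ^ α j i) (plantedLaw β k n N) := by
  unfold plantedLaw
  rw [integrable_finsetSum_measure]
  intro s _
  exact (integrable_given hβ _ α).smul_measure ENNReal.ofReal_ne_top

theorem integral_planted {β k : ℝ} (hβ : 0 ≤ β) (hk : 0 ≤ k) (hkn : k ≤ n)
    (α : Fin N → Fin n → ℕ) :
    ∫ Y, ∏ j, ∏ i, Y j i ^ α j i ∂(plantedLaw β k n N) = pm β k α := by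
  unfold plantedLaw
  rw [integral_finsetSum_measure fun s _ =>
    (integrable_given hβ _ α).smul_measure ENNReal.ofReal_ne_top]
  unfold pm
  refine Finset.sum_congr rfl fun s _ => ?_
  rw [integral_smul_measure, ENNReal.toReal_ofReal
    (Finset.prod_nonneg fun i _ => spikeProb_nonneg hk hkn _), smul_eq_mul]
  congr 1
  rw [integral_fintype_prod_eq_prod (𝕜 := ℝ) (fun j (y : Fin n → ℝ) => ∏ i, y i ^ α j i)]
  exact Finset.prod_congr rfl fun j _ => integral_column hβ _ (α j)

/-! ### bounds for the column integrals -/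

/-- the majorant of the column integrals -/
noncomputable def maj (β k : ℝ) (a b : ℕ) (g : ℝ) : ℝ :=
  (√β * |g|) ^ a * (1 + β / k * g ^ 2) ^ b

/-- the integral of the majorant -/
noncomputable def kap (β k : ℝ) (a b : ℕ) : ℝ := ∫ g, maj β k a b g ∂γ₁

theorem maj_nonneg {β k : ℝ} (hβ : 0 ≤ β) (hk : 0 ≤ k) (a b : ℕ) (g : ℝ) :
    0 ≤ maj β k a b g := by
  unfold maj
  positivity

theorem integrable_maj {β k : ℝ} (hβ : 0 ≤ β) (hk : 0 ≤ k) (a b : ℕ) :
    Integrable (maj β k a b) γ₁ := by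
  set C : ℝ := √β + √(β / k) with hC
  have hC0 : 0 ≤ C := by positivity
  refine (integrable_abs_pow C hC0 (a + 2 * b)).mono ?_
    (Filter.Eventually.of_forall fun g => ?_)
  · have : Measurable (maj β k a b) := by
      unfold maj
      fun_prop
    exact this.aestronglyMeasurable
  · rw [Real.norm_eq_abs, Real.norm_eq_abs, abs_of_nonneg (maj_nonneg hβ hk a b g),
      abs_of_nonneg (by positivity), pow_add, pow_mul]
    unfold maj
    have h1 : √β * |g| ≤ 1 + C * |g| := by
      have : √β * |g| ≤ C * |g| :=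
        mul_le_mul_of_nonneg_right (by rw [hC]; linarith [Real.sqrt_nonneg (β / k)]) (abs_nonneg _)
      linarith
    have h2 : 1 + β / k * g ^ 2 ≤ (1 + C * |g|) ^ 2 := by
      have e1 : β / k * g ^ 2 = (√(β / k) * |g|) ^ 2 := by
        rw [mul_pow, Real.sq_sqrt (by positivity), sq_abs]
      have e2 : (√(β / k) * |g|) ^ 2 ≤ (C * |g|) ^ 2 := by
        refine pow_le_pow_left₀ (by positivity) (mul_le_mul_of_nonneg_right ?_ (abs_nonneg _)) _
        rw [hC]; linarith [Real.sqrt_nonneg β]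
      have e3 : 0 ≤ C * |g| := by positivity
      rw [e1]
      nlinarith
    exact mul_le_mul (pow_le_pow_left₀ (by positivity) h1 _)
      (pow_le_pow_left₀ (by positivity) h2 _) (by positivity) (by positivity)

theorem kap_zero (β k : ℝ) : kap β k 0 0 = 1 := by simp [kap, maj]

theorem kap_two_zero {β : ℝ} (hβ : 0 ≤ β) (k : ℝ) : kap β k 2 0 = β := by
  unfold kap maj
  have e : ∀ g : ℝ, (√β * |g|) ^ 2 * (1 + β / k * g ^ 2) ^ 0 = β * g ^ 2 := by
    intro g
    rw [mul_pow, Real.sq_sqrt hβ, sq_abs, pow_zero, mul_one]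
  simp_rw [e]
  rw [integral_const_mul, integral_sq', mul_one]

/-- the fourth moment of the standard Gaussian law -/
noncomputable def M4 : ℝ := ∫ g, g ^ 4 ∂γ₁

theorem kap_zero_two (β k : ℝ) : kap β k 0 2 = 1 + 2 * (β / k) + (β / k) ^ 2 * M4 := by
  unfold kap maj M4
  have e : ∀ g : ℝ, (√β * |g|) ^ 0 * (1 + β / k * g ^ 2) ^ 2 =
      1 + (2 * (β / k) * g ^ 2 + (β / k) ^ 2 * g ^ 4) := by
    intro g
    ring
  simp_rw [e]
  have h4 : Integrable (fun z : ℝ => z ^ 4) γ₁ := by simpa using integrable_pow_add 0 4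
  have h1 : Integrable (fun g : ℝ => 2 * (β / k) * g ^ 2) γ₁ := integrable_sq'.const_mul _
  have h2 : Integrable (fun g : ℝ => (β / k) ^ 2 * g ^ 4) γ₁ := h4.const_mul _
  have h3 : Integrable (fun g : ℝ => 2 * (β / k) * g ^ 2 + (β / k) ^ 2 * g ^ 4) γ₁ := h1.add h2
  rw [integral_add (integrable_const _) h3, integral_add h1 h2, integral_const_mul,
    integral_const_mul, integral_sq']
  simp
  ring

/-- a bound for all the integrals that occur -/
noncomputable def bigK (β : ℝ) : ℝ := ∫ g, (1 + √β * |g|) ^ 4 * (1 + β * g ^ 2) ^ 2 ∂γ₁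

theorem integrable_bigK {β : ℝ} (hβ : 0 ≤ β) :
    Integrable (fun g : ℝ => (1 + √β * |g|) ^ 4 * (1 + β * g ^ 2) ^ 2) γ₁ := by
  refine (integrable_abs_pow (√β) (Real.sqrt_nonneg β) 8).mono ?_
    (Filter.Eventually.of_forall fun g => ?_)
  · have : Measurable fun g : ℝ => (1 + √β * |g|) ^ 4 * (1 + β * g ^ 2) ^ 2 := by fun_prop
    exact this.aestronglyMeasurable
  · rw [Real.norm_eq_abs, Real.norm_eq_abs,
      abs_of_nonneg (by positivity : 0 ≤ (1 + √β * |g|) ^ 4 * (1 + β * g ^ 2) ^ 2),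
      abs_of_nonneg (by positivity : 0 ≤ (1 + √β * |g|) ^ 8)]
    have h2 : 1 + β * g ^ 2 ≤ (1 + √β * |g|) ^ 2 := by
      have e1 : β * g ^ 2 = (√β * |g|) ^ 2 := by
        rw [mul_pow, Real.sq_sqrt hβ, sq_abs]
      have e3 : 0 ≤ √β * |g| := by positivity
      rw [e1]
      nlinarith
    calc (1 + √β * |g|) ^ 4 * (1 + β * g ^ 2) ^ 2
        ≤ (1 + √β * |g|) ^ 4 * ((1 + √β * |g|) ^ 2) ^ 2 := by gcongr
      _ = (1 + √β * |g|) ^ 8 := by ring

theorem kap_le {β k : ℝ} (hβ : 0 ≤ β) (hk : 1 ≤ k) {a b : ℕ} (ha : a ≤ 4) (hb : b ≤ 2) :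
    kap β k a b ≤ bigK β := by
  refine integral_mono (integrable_maj hβ (by linarith) a b) (integrable_bigK hβ) fun g => ?_
  unfold maj
  have h0 : 0 ≤ √β * |g| := by positivity
  have h1 : (√β * |g|) ^ a ≤ (1 + √β * |g|) ^ 4 :=
    (pow_le_pow_left₀ h0 (by linarith) _).trans (pow_le_pow_right₀ (by linarith) ha)
  have h2 : β / k * g ^ 2 ≤ β * g ^ 2 :=
    mul_le_mul_of_nonneg_right (div_le_self hβ hk) (sq_nonneg g)
  have h3 : 0 ≤ β / k * g ^ 2 := by positivity
  have h4 : (1 + β / k * g ^ 2) ^ b ≤ (1 + β * g ^ 2) ^ 2 :=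
    (pow_le_pow_left₀ (by linarith) (by linarith) _).trans
      (pow_le_pow_right₀ (by linarith) hb)
  exact mul_le_mul h1 h4 (by positivity) (by positivity)

theorem one_le_bigK {β : ℝ} (hβ : 0 ≤ β) : 1 ≤ bigK β := by
  have := kap_le (k := 1) hβ le_rfl (a := 0) (b := 0) (by omega) (by omega)
  rwa [kap_zero] at this

/-- the bound for the integral of a column -/
theorem column_bound {β k : ℝ} (hβ : 0 ≤ β) (hk : 0 < k) (x : Fin n → ℝ)
    (hx : ∀ i, x i ^ 2 ≤ 1 / k) (α : Fin n → ℕ) (hα : ∀ i, α i ≤ 2) :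
    |∫ g, ∏ i, mom (α i) (√β * x i * g) ∂γ₁| ≤
      (∏ i, if α i = 1 then |x i| else 1) *
        kap β k (univ.filter fun i => α i = 1).card (univ.filter fun i => α i = 2).card := by
  set a := (univ.filter fun i => α i = 1).card
  set b := (univ.filter fun i => α i = 2).card
  unfold kap
  rw [← integral_const_mul]
  refine (norm_integral_le_of_norm_le
    (f := fun g : ℝ => ∏ i, mom (α i) (√β * x i * g)) (μ := γ₁)
    (((integrable_maj hβ hk.le a b).const_mul (∏ i, if α i = 1 then |x i| else 1)))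
    (Filter.Eventually.of_forall fun g => ?_))
  rw [norm_prod]
  have e1 : (√β * |g|) ^ a = ∏ i, if α i = 1 then √β * |g| else 1 := by
    rw [Finset.prod_ite, Finset.prod_const_one, mul_one, Finset.prod_const]
  have e2 : (1 + β / k * g ^ 2) ^ b = ∏ i, if α i = 2 then 1 + β / k * g ^ 2 else 1 := by
    rw [Finset.prod_ite, Finset.prod_const_one, mul_one, Finset.prod_const]
  unfold maj
  rw [e1, e2, ← Finset.prod_mul_distrib, ← Finset.prod_mul_distrib]
  refine Finset.prod_le_prod (fun i _ => norm_nonneg _) fun i _ => ?_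
  have h3 := hα i
  rcases (by omega : α i = 0 ∨ α i = 1 ∨ α i = 2) with h | h | h
  · rw [h, mom_zero]
    simp
  · rw [h, mom_one]
    simp only [Real.norm_eq_abs, if_true, OfNat.one_ne_ofNat, if_false, mul_one]
    rw [abs_mul, abs_mul, abs_of_nonneg (Real.sqrt_nonneg β)]
    exact le_of_eq (by ring)
  · rw [h, mom_two]
    simp only [Real.norm_eq_abs, if_true, OfNat.ofNat_ne_one, if_false, one_mul]
    rw [abs_of_nonneg (by positivity)]
    have h4 : (√β * x i * g) ^ 2 = β * g ^ 2 * x i ^ 2 := by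
      rw [mul_pow, mul_pow, Real.sq_sqrt hβ]; ring
    have h5 : β / k * g ^ 2 = β * g ^ 2 * (1 / k) := by ring
    rw [h4, h5]
    have := mul_le_mul_of_nonneg_left (hx i) (by positivity : 0 ≤ β * g ^ 2)
    linarith

/-- the absolute moments of a coordinate of the spike -/
noncomputable def amom (n : ℕ) (k : ℝ) (m : ℕ) : ℝ :=
  ∑ s : SignType, spikeProb n k s * |(s : ℝ) / √k| ^ m

theorem sum_sign (F : SignType → ℝ) : ∑ s : SignType, F s = F 0 + F (-1) + F 1 := by
  have : (univ : Finset SignType) = {0, -1, 1} := by decide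
  rw [this, Finset.sum_insert (by decide), Finset.sum_insert (by decide), Finset.sum_singleton]
  ring

theorem amom_zero {k : ℝ} (hn : n ≠ 0) : amom n k 0 = 1 := by
  have hn' : (n : ℝ) ≠ 0 := Nat.cast_ne_zero.mpr hn
  unfold amom
  rw [sum_sign]
  simp only [spikeProb, pow_zero, mul_one, if_true]
  rw [if_neg (show (-1 : SignType) ≠ 0 by decide), if_neg (show (1 : SignType) ≠ 0 by decide)]
  field_simp
  ring

theorem amom_pos {k : ℝ} {m : ℕ} (hm : m ≠ 0) : amom n k m = k / n * (1 / √k) ^ m := by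
  unfold amom
  rw [sum_sign]
  have h1 : |((0 : SignType) : ℝ) / √k| ^ m = 0 := by simp [hm]
  have h2 : |((-1 : SignType) : ℝ) / √k| = 1 / √k := by
    rw [abs_div, abs_of_nonneg (Real.sqrt_nonneg k)]; simp
  have h3 : |((1 : SignType) : ℝ) / √k| = 1 / √k := by
    rw [abs_div, abs_of_nonneg (Real.sqrt_nonneg k)]; simp
  rw [h1, h2, h3]
  simp only [spikeProb]
  rw [if_neg (show (-1 : SignType) ≠ 0 by decide), if_neg (show (1 : SignType) ≠ 0 by decide)]
  rcases eq_or_ne (n : ℝ) 0 with hn | hn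
  · rw [hn]; simp
  · field_simp
    ring

theorem amom_two {k : ℝ} (hk : 0 < k) : amom n k 2 = 1 / n := by
  rw [amom_pos two_ne_zero, div_pow, Real.sq_sqrt hk.le]
  field_simp

theorem amom_le {k : ℝ} (hk : 1 ≤ k) {m : ℕ} (hm : 2 ≤ m) : amom n k m ≤ 1 / n := by
  rw [← amom_two (n := n) (by linarith : (0 : ℝ) < k), amom_pos (by omega), amom_pos two_ne_zero]
  refine mul_le_mul_of_nonneg_left ?_ (by positivity)
  refine pow_le_pow_of_le_one (by positivity) ?_ hm
  rw [div_le_one (by positivity)]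
  exact Real.one_le_sqrt.mpr hk

theorem amom_four {k : ℝ} (hk : 1 ≤ k) : amom n k 4 = 1 / n * (1 / k) := by
  have hk0 : (0 : ℝ) < k := by linarith
  have e : (√k) ^ 4 = k ^ 2 := by
    rw [show (√k) ^ 4 = ((√k) ^ 2) ^ 2 by ring, Real.sq_sqrt hk0.le]
  rw [amom_pos (by omega), div_pow, e]
  field_simp

theorem amom_nonneg {k : ℝ} (hk : 0 ≤ k) (hkn : k ≤ n) (m : ℕ) : 0 ≤ amom n k m :=
  Finset.sum_nonneg fun s _ => mul_nonneg (spikeProb_nonneg hk hkn s) (by positivity)

theorem sum_spike (F : Fin n → SignType → ℝ) :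
    ∑ s : Fin n → SignType, ∏ i, F i (s i) = ∏ i, ∑ a, F i a := by
  rw [Finset.prod_univ_sum, Fintype.piFinset_univ]

theorem spike_sq_le {k : ℝ} (hk : 0 < k) (s : SignType) : ((s : ℝ) / √k) ^ 2 ≤ 1 / k := by
  rw [div_pow, Real.sq_sqrt hk.le]
  have : (s : ℝ) ^ 2 ≤ 1 := by
    rcases s with _ | _ | _ <;> norm_num [SignType.cast]
  gcongr

/-- **bound for the moments of the planted law** -/
theorem pm_bound {β k : ℝ} (hβ : 0 ≤ β) (hk : 0 < k) (hkn : k ≤ n)
    (α : Fin N → Fin n → ℕ) (hα : ∀ j i, α j i ≤ 2) :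
    pm β k α ≤ (∏ i, amom n k (univ.filter fun j => α j i = 1).card) *
      ∏ j, kap β k (univ.filter fun i => α j i = 1).card
        (univ.filter fun i => α j i = 2).card := by
  have e1 : (∏ i, amom n k (univ.filter fun j => α j i = 1).card) =
      ∑ s : Fin n → SignType, (∏ i, spikeProb n k (s i)) *
        ∏ j, ∏ i, if α j i = 1 then |(s i : ℝ) / √k| else 1 := by
    unfold amom
    rw [← sum_spike]
    refine Finset.sum_congr rfl fun s _ => ?_
    rw [Finset.prod_mul_distrib]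
    congr 1
    rw [Finset.prod_comm]
    refine Finset.prod_congr rfl fun i _ => ?_
    rw [Finset.prod_ite, Finset.prod_const_one, mul_one, Finset.prod_const]
  rw [e1, Finset.sum_mul]
  unfold pm
  refine Finset.sum_le_sum fun s _ => ?_
  rw [mul_assoc, ← Finset.prod_mul_distrib]
  refine mul_le_mul_of_nonneg_left ?_
    (Finset.prod_nonneg fun i _ => spikeProb_nonneg hk.le hkn _)
  refine (le_abs_self _).trans ?_
  rw [Finset.abs_prod]
  exact Finset.prod_le_prod (fun j _ => abs_nonneg _) fun j _ =>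
    column_bound hβ hk _ (fun i => spike_sq_le hk _) _ (hα j)

end Pool.Agent.Q326.SP
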