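import Pool.Agent.Q326.SP.Pair

set_option autoImplicit false
set_option linter.unusedSectionVars false

/-! # The mean and the variances of the cycle polynomial -/

namespace Pool.Agent.Q326.SP

open MeasureTheory ProbabilityTheory Finset

variable {T : Type} [Fintype T] [DecidableEq T] {σ : Equiv.Perm T} {n N : ℕ}

/-- the cycle polynomial -/
noncomputable def cycPoly (σ : Equiv.Perm T) (n N : ℕ) : MvPolynomial (Fin n × Fin N) ℝ :=
  ∑ c : Cyc T n N, ∏ p ∈ edges σ c, MvPolynomial.X p

theorem value_cycPoly (Y : Data n N) : value (cycPoly σ n N) Y = ∑ c, mono σ c Y := by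
  simp [value, cycPoly, mono, map_sum, map_prod]

theorem degree_cycPoly (h : Single σ) : (cycPoly σ n N).totalDegree ≤ 2 * Fintype.card T := by
  unfold cycPoly
  refine MvPolynomial.totalDegree_finsetSum_le fun c _ => ?_
  refine (MvPolynomial.totalDegree_finsetProd _ _).trans ?_
  rw [← card_edges h c, card_eq_sum_ones]
  refine Finset.sum_le_sum fun p _ => ?_
  exact (MvPolynomial.totalDegree_X p).le

theorem plantedLaw_prob {β k : ℝ} (hk : 0 ≤ k) (hkn : k ≤ n) (hn : n ≠ 0) :
    IsProbabilityMeasure (plantedLaw β k n N) := by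
  constructor
  unfold plantedLaw
  rw [Measure.finsetSum_apply]
  have e1 : ∀ s : Fin n → SignType, (ENNReal.ofReal (∏ i, spikeProb n k (s i)) •
      Measure.pi fun _ : Fin N => columnLaw β fun i => (s i : ℝ) / √k) Set.univ =
      ENNReal.ofReal (∏ i, spikeProb n k (s i)) := by
    intro s
    rw [Measure.smul_apply, measure_univ, smul_eq_mul, mul_one]
  simp_rw [e1]
  rw [← ENNReal.ofReal_sum_of_nonneg fun s _ =>
    Finset.prod_nonneg fun i _ => spikeProb_nonneg hk hkn _,
    sum_spike (fun _ a => spikeProb n k a)]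
  have e2 : ∑ a : SignType, spikeProb n k a = 1 := by
    have := amom_zero (k := k) hn
    unfold amom at this
    simpa using this
  simp_rw [e2]
  simp

theorem measurable_mono (c : Cyc T n N) : Measurable (mono σ c) := by
  unfold mono
  fun_prop

theorem sq_sum (Y : Data n N) :
    (∑ c, mono σ c Y) ^ 2 = ∑ c, ∑ d, mono σ c Y * mono σ d Y := by
  rw [sq, Finset.sum_mul_sum]

theorem memLp_of {μ : Measure (Data n N)}
    (hμ : ∀ α : Fin N → Fin n → ℕ, Integrable (fun Y : Data n N => ∏ j, ∏ i, Y j i ^ α j i) μ) :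
    MemLp (value (cycPoly σ n N)) 2 μ := by
  have e : value (cycPoly σ n N) = fun Y => ∑ c, mono σ c Y := funext value_cycPoly
  rw [e]
  have hm : Measurable fun Y : Data n N => ∑ c, mono σ c Y :=
    Finset.measurable_sum _ fun c _ => measurable_mono c
  rw [memLp_two_iff_integrable_sq hm.aestronglyMeasurable]
  simp_rw [sq_sum]
  refine integrable_finsetSum _ fun c _ => integrable_finsetSum _ fun d _ => ?_
  simp_rw [mono_mul]
  exact hμ _

/-- the number of cycles -/
noncomputable def L (T : Type) [Fintype T] [DecidableEq T] (n N : ℕ) : ℝ :=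
  Fintype.card (Cyc T n N)

theorem L_eq : L T n N = (n.descFactorial (Fintype.card T) : ℝ) *
    (N.descFactorial (Fintype.card T) : ℝ) := by
  rw [L, Fintype.card_prod, Fintype.card_embedding_eq, Fintype.card_embedding_eq,
    Fintype.card_fin, Fintype.card_fin]
  push_cast
  ring

theorem L_nonneg : 0 ≤ L T n N := Nat.cast_nonneg _

theorem null_mean (h : Single σ) [Nonempty T] :
    ∫ Y, value (cycPoly σ n N) Y ∂(nullLaw n N) = 0 := by
  simp_rw [value_cycPoly]
  rw [integral_finsetSum]
  · exact Finset.sum_eq_zero fun c _ => null_mono h c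
  · intro c _
    rw [show mono σ c = fun Y => ∏ j, ∏ i, Y j i ^ ind σ c j i from funext (mono_eq c)]
    exact integrable_gauss _

instance : IsProbabilityMeasure (nullLaw n N) := by
  unfold nullLaw; infer_instance

theorem null_var (h : Single σ) [Nonempty T] :
    Var[value (cycPoly σ n N); nullLaw n N] ≤ 2 * Fintype.card T * L T n N := by
  have e : value (cycPoly σ n N) = fun Y => ∑ c, mono σ c Y := funext value_cycPoly
  have hm : Measurable fun Y : Data n N => ∑ c, mono σ c Y :=
    Finset.measurable_sum _ fun c _ => measurable_mono c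
  refine (variance_le_expectation_sq (by rw [e]; exact hm.aestronglyMeasurable)).trans ?_
  rw [e]
  have e2 : ∫ Y, ((fun Y => ∑ c, mono σ c Y) ^ 2) Y ∂(nullLaw n N) =
      ∑ c : Cyc T n N, ∑ d : Cyc T n N, if edges σ c = edges σ d then (1 : ℝ) else 0 := by
    simp_rw [Pi.pow_apply, sq_sum]
    rw [integral_finsetSum]
    · refine Finset.sum_congr rfl fun c _ => ?_
      rw [integral_finsetSum]
      · exact Finset.sum_congr rfl fun d _ => null_pair c d
      · intro d _
        simp_rw [mono_mul]
        exact integrable_gauss _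
    · intro c _
      refine integrable_finsetSum _ fun d _ => ?_
      simp_rw [mono_mul]
      exact integrable_gauss _
  rw [e2]
  have e3 : ∀ c : Cyc T n N, (∑ d : Cyc T n N, if edges σ c = edges σ d then (1 : ℝ) else 0) ≤
      2 * Fintype.card T := by
    intro c
    rw [Finset.sum_ite, Finset.sum_const_zero, add_zero, Finset.sum_const, nsmul_eq_mul, mul_one]
    exact_mod_cast card_same_edges h c
  refine (Finset.sum_le_sum fun c _ => e3 c).trans (le_of_eq ?_)
  rw [Finset.sum_const, nsmul_eq_mul, card_univ, L]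
  ring

theorem planted_mean {β k : ℝ} (h : Single σ) (hβ : 0 ≤ β) (hk : 0 < k) (hkn : k ≤ n)
    (hn : n ≠ 0) :
    ∫ Y, value (cycPoly σ n N) Y ∂(plantedLaw β k n N) =
      L T n N * (β / n) ^ Fintype.card T := by
  simp_rw [value_cycPoly]
  rw [integral_finsetSum]
  · have e1 : ∀ c : Cyc T n N, ∫ Y, mono σ c Y ∂(plantedLaw β k n N) =
        (β / n) ^ Fintype.card T := by
      intro c
      simp_rw [mono_eq]
      rw [integral_planted hβ hk.le hkn]
      exact pm_single h hβ hk hn c
    simp_rw [e1]
    rw [Finset.sum_const, nsmul_eq_mul, card_univ, L]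
  · intro c _
    rw [show mono σ c = fun Y => ∏ j, ∏ i, Y j i ^ ind σ c j i from funext (mono_eq c)]
    exact integrable_planted hβ k _

/-- the sum of the error terms -/
noncomputable def S (T : Type) [Fintype T] [DecidableEq T] (n N : ℕ) : ℝ :=
  ∑ c : Cyc T n N, ∑ d : Cyc T n N,
    (n : ℝ) ^ ((rows c ∩ rows d).card + (cols c ∩ cols d).card)

theorem planted_var {β k : ℝ} (h : Single σ) [Nonempty T] (hβ : 0 ≤ β) (hk : 1 ≤ k)
    (hkn : k ≤ n) :
    Var[value (cycPoly σ n N); plantedLaw β k n N] ≤
      2 * Fintype.card T * L T n N * kap β k 0 2 ^ Fintype.card T +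
      bigK β ^ (2 * Fintype.card T) * (1 / n + 1 / k) * (1 / n : ℝ) ^ (2 * Fintype.card T) *
        S T n N := by
  have hk0 : (0 : ℝ) < k := by linarith
  have hn : n ≠ 0 := by
    rintro rfl
    simp at hkn
    linarith
  have hP : IsProbabilityMeasure (plantedLaw β k n N) := plantedLaw_prob hk0.le hkn hn
  rw [variance_eq_sub (memLp_of fun α => integrable_planted hβ k α), planted_mean h hβ hk0 hkn hn]
  have e : value (cycPoly σ n N) = fun Y => ∑ c, mono σ c Y := funext value_cycPoly
  rw [e]
  have e2 : ∫ Y, ((fun Y => ∑ c, mono σ c Y) ^ 2) Y ∂(plantedLaw β k n N) =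
      ∑ c : Cyc T n N, ∑ d : Cyc T n N, pm β k (mult σ c d) := by
    simp_rw [Pi.pow_apply, sq_sum]
    rw [integral_finsetSum]
    · refine Finset.sum_congr rfl fun c _ => ?_
      rw [integral_finsetSum]
      · refine Finset.sum_congr rfl fun d _ => ?_
        simp_rw [mono_mul]
        exact integral_planted hβ hk0.le hkn _
      · intro d _
        simp_rw [mono_mul]
        exact integrable_planted hβ k _
    · intro c _
      refine integrable_finsetSum _ fun d _ => ?_
      simp_rw [mono_mul]
      exact integrable_planted hβ k _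
  rw [e2]
  have hkap : 0 ≤ kap β k 0 2 := kap_nonneg hβ hk0.le _ _
  have e3 : ∑ c : Cyc T n N, ∑ d : Cyc T n N, pm β k (mult σ c d) ≤
      ∑ c : Cyc T n N, ∑ d : Cyc T n N, ((β / n) ^ (2 * Fintype.card T) +
      (if edges σ c = edges σ d then kap β k 0 2 ^ Fintype.card T else 0) +
      bigK β ^ (2 * Fintype.card T) * (1 / n + 1 / k) * (1 / n : ℝ) ^ (2 * Fintype.card T) *
        (n : ℝ) ^ ((rows c ∩ rows d).card + (cols c ∩ cols d).card)) :=
    Finset.sum_le_sum fun c _ => Finset.sum_le_sum fun d _ => pair_bound h hβ hk hkn c d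
  have e4 : ∑ c : Cyc T n N, ∑ d : Cyc T n N, ((β / n) ^ (2 * Fintype.card T) +
      (if edges σ c = edges σ d then kap β k 0 2 ^ Fintype.card T else 0) +
      bigK β ^ (2 * Fintype.card T) * (1 / n + 1 / k) * (1 / n : ℝ) ^ (2 * Fintype.card T) *
        (n : ℝ) ^ ((rows c ∩ rows d).card + (cols c ∩ cols d).card)) =
      (L T n N * (β / n) ^ Fintype.card T) ^ 2 +
      (∑ c : Cyc T n N, ∑ d : Cyc T n N,
        if edges σ c = edges σ d then kap β k 0 2 ^ Fintype.card T else 0) +
      bigK β ^ (2 * Fintype.card T) * (1 / n + 1 / k) * (1 / n : ℝ) ^ (2 * Fintype.card T) *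
        S T n N := by
    simp_rw [Finset.sum_add_distrib]
    congr 1
    · congr 1
      rw [Finset.sum_const, Finset.sum_const, nsmul_eq_mul, nsmul_eq_mul, card_univ, L]
      ring
    · rw [S, Finset.mul_sum]
      exact Finset.sum_congr rfl fun c _ => (Finset.mul_sum _ _ _).symm
  have e5 : (∑ c : Cyc T n N, ∑ d : Cyc T n N,
        if edges σ c = edges σ d then kap β k 0 2 ^ Fintype.card T else 0) ≤
      2 * Fintype.card T * L T n N * kap β k 0 2 ^ Fintype.card T := by
    have e6 : ∀ c : Cyc T n N, (∑ d : Cyc T n N,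
        if edges σ c = edges σ d then kap β k 0 2 ^ Fintype.card T else 0) ≤
        2 * Fintype.card T * kap β k 0 2 ^ Fintype.card T := by
      intro c
      rw [Finset.sum_ite, Finset.sum_const_zero, add_zero, Finset.sum_const, nsmul_eq_mul]
      refine mul_le_mul_of_nonneg_right ?_ (by positivity)
      exact_mod_cast card_same_edges h c
    refine (Finset.sum_le_sum fun c _ => e6 c).trans (le_of_eq ?_)
    rw [Finset.sum_const, nsmul_eq_mul, card_univ, L]
    ring
  linarith

/-! ### the bound for the sum of the error terms -/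

theorem sum_emb_le {m : ℕ} (R : Finset (Fin m)) (hR : R.card = Fintype.card T) {a : ℝ}
    (ha : 1 ≤ a) :
    ∑ e : T ↪ Fin m, a ^ (R ∩ univ.map e).card ≤
      (Fintype.card T * a + m) ^ Fintype.card T := by
  have ha0 : (0 : ℝ) ≤ a := by linarith
  have e1 : ∀ e : T ↪ Fin m, a ^ (R ∩ univ.map e).card =
      ∏ t, (fun i => if i ∈ R then a else 1) (e t) := by
    intro e
    rw [inter_comm, ← Finset.filter_mem_eq_inter, ← Finset.prod_const,
      Finset.prod_filter, Finset.prod_map]
  simp_rw [e1]
  have e2 : ∑ e : T ↪ Fin m, ∏ t, (if e t ∈ R then a else 1) ≤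
      ∑ f : T → Fin m, ∏ t, (if f t ∈ R then a else 1) := by
    have h1 : ∑ e : T ↪ Fin m, ∏ t, (if e t ∈ R then a else 1) =
        ∑ f ∈ univ.map (⟨fun e : T ↪ Fin m => (e : T → Fin m), DFunLike.coe_injective⟩ :
          (T ↪ Fin m) ↪ (T → Fin m)), ∏ t, (if f t ∈ R then a else 1) := by
      rw [Finset.sum_map]
      rfl
    rw [h1]
    refine Finset.sum_le_sum_of_subset_of_nonneg (subset_univ _) fun f _ _ => ?_
    exact Finset.prod_nonneg fun t _ => by split_ifs <;> positivity
  refine e2.trans ?_
  have e3 : ∑ f : T → Fin m, ∏ t, (if f t ∈ R then a else 1) =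
      ∏ _t : T, ∑ i : Fin m, (if i ∈ R then a else 1) := by
    rw [Finset.prod_univ_sum, Fintype.piFinset_univ]
  rw [e3, Finset.prod_const, card_univ]
  refine pow_le_pow_left₀ (Finset.sum_nonneg fun i _ => by split_ifs <;> positivity) ?_ _
  have e4 : ∀ i : Fin m, (if i ∈ R then a else 1) ≤ (if i ∈ R then a else 0) + 1 := by
    intro i
    split_ifs <;> linarith
  refine (Finset.sum_le_sum fun i _ => e4 i).trans (le_of_eq ?_)
  rw [Finset.sum_add_distrib, Finset.sum_const, card_univ, Fintype.card_fin, nsmul_eq_mul,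
    mul_one, Finset.sum_ite_mem, univ_inter, Finset.sum_const, hR, nsmul_eq_mul]

theorem S_le (hn : n ≠ 0) :
    S T n N ≤ L T n N * ((Fintype.card T * n + n) ^ Fintype.card T *
      (Fintype.card T * n + N) ^ Fintype.card T) := by
  have hn1 : (1 : ℝ) ≤ n := by exact_mod_cast Nat.one_le_iff_ne_zero.mpr hn
  unfold S
  have e1 : ∀ c : Cyc T n N, ∑ d : Cyc T n N,
      (n : ℝ) ^ ((rows c ∩ rows d).card + (cols c ∩ cols d).card) ≤
      (Fintype.card T * n + n) ^ Fintype.card T * (Fintype.card T * n + N) ^ Fintype.card T := by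
    intro c
    rw [Fintype.sum_prod_type]
    have e2 : ∀ (x : T ↪ Fin n) (y : T ↪ Fin N),
        (n : ℝ) ^ ((rows c ∩ rows ((x, y) : Cyc T n N)).card +
          (cols c ∩ cols ((x, y) : Cyc T n N)).card) =
        (n : ℝ) ^ (rows c ∩ univ.map x).card * (n : ℝ) ^ (cols c ∩ univ.map y).card := by
      intro x y
      rw [pow_add]
      rfl
    simp_rw [e2]
    rw [← Finset.sum_mul_sum]
    exact mul_le_mul (sum_emb_le _ (card_rows c) hn1) (sum_emb_le _ (card_cols c) hn1)
      (Finset.sum_nonneg fun _ _ => by positivity) (by positivity)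
  refine (Finset.sum_le_sum fun c _ => e1 c).trans (le_of_eq ?_)
  rw [Finset.sum_const, nsmul_eq_mul, card_univ, L]

end Pool.Agent.Q326.SP
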